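import Mathlib

/-!
The values `φ (T^t w)` on the orbit of a vector under a linear endomorphism of a free module over
`ℤ/q`, `q = p^k` a prime power, in terms of the solutions of `(y - T) u = w` in
`V ⊗ R[y] / (g)`, `g` monic of degree `e`, `3 N ≤ p^e`.
-/

namespace Pool.Agent.SolR

open Module Polynomial

section ring

variable {R V : Type*} [CommRing R] [AddCommGroup V] [Module R V]

/-- `G_l(w) = sum_(k < l) φ(T^(l-1-k) w) X^k`. -/
noncomputable def gPol (T : Module.End R V) (φ : V →ₗ[R] R) (l : ℕ) (w : V) : R[X] :=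
  ∑ k ∈ Finset.range l, C (φ ((T ^ (l - 1 - k)) w)) * X ^ k

lemma gPol_apply_T (T : Module.End R V) (φ : V →ₗ[R] R) (l : ℕ) (w : V) :
    gPol T φ l (T w) = X * gPol T φ l w + C (φ ((T ^ l) w)) - C (φ w) * X ^ l := by
  unfold gPol
  have h1 : X * ∑ k ∈ Finset.range l, C (φ ((T ^ (l - 1 - k)) w)) * X ^ k =
      ∑ k ∈ Finset.range l, C (φ ((T ^ (l - (k + 1))) w)) * X ^ (k + 1) := by
    rw [Finset.mul_sum]
    refine Finset.sum_congr rfl fun k _ => ?_
    have : l - 1 - k = l - (k + 1) := by omega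
    rw [this, pow_succ]
    ring
  have h2 : ∑ k ∈ Finset.range (l + 1), C (φ ((T ^ (l - k)) w)) * X ^ k =
      ∑ k ∈ Finset.range l, C (φ ((T ^ (l - (k + 1))) w)) * X ^ (k + 1) +
      C (φ ((T ^ l) w)) := by
    rw [Finset.sum_range_succ']
    simp
  have h3 : ∑ k ∈ Finset.range (l + 1), C (φ ((T ^ (l - k)) w)) * X ^ k =
      ∑ k ∈ Finset.range l, C (φ ((T ^ (l - 1 - k)) (T w))) * X ^ k + C (φ w) * X ^ l := by
    rw [Finset.sum_range_succ]
    congr 1
    · refine Finset.sum_congr rfl fun k hk => ?_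
      have hk' := Finset.mem_range.mp hk
      have : l - k = (l - 1 - k) + 1 := by omega
      rw [this, pow_succ]
      rfl
    · simp
  rw [h1]
  rw [h2] at h3
  linear_combination -h3

/-- The numerator polynomial. -/
noncomputable def nPol (T : Module.End R V) (φ : V →ₗ[R] R) (χ : R[X]) (N : ℕ) (w : V) : R[X] :=
  ∑ l ∈ Finset.range (N + 1), C (χ.coeff l) * gPol T φ l w

lemma gPol_add (T : Module.End R V) (φ : V →ₗ[R] R) (l : ℕ) (v w : V) :
    gPol T φ l (v + w) = gPol T φ l v + gPol T φ l w := by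
  unfold gPol
  rw [← Finset.sum_add_distrib]
  refine Finset.sum_congr rfl fun k _ => ?_
  rw [map_add, map_add, C_add, add_mul]

lemma gPol_smul (T : Module.End R V) (φ : V →ₗ[R] R) (l : ℕ) (c : R) (w : V) :
    gPol T φ l (c • w) = C c * gPol T φ l w := by
  unfold gPol
  rw [Finset.mul_sum]
  refine Finset.sum_congr rfl fun k _ => ?_
  rw [map_smul, map_smul, smul_eq_mul, C_mul]
  ring

lemma nPol_add (T : Module.End R V) (φ : V →ₗ[R] R) (χ : R[X]) (N : ℕ) (v w : V) :
    nPol T φ χ N (v + w) = nPol T φ χ N v + nPol T φ χ N w := by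
  unfold nPol
  rw [← Finset.sum_add_distrib]
  refine Finset.sum_congr rfl fun l _ => ?_
  rw [gPol_add, mul_add]

lemma nPol_smul (T : Module.End R V) (φ : V →ₗ[R] R) (χ : R[X]) (N : ℕ) (c : R) (w : V) :
    nPol T φ χ N (c • w) = C c * nPol T φ χ N w := by
  unfold nPol
  rw [Finset.mul_sum]
  refine Finset.sum_congr rfl fun l _ => ?_
  rw [gPol_smul]
  ring

lemma nPol_zero (T : Module.End R V) (φ : V →ₗ[R] R) (χ : R[X]) (N : ℕ) :
    nPol T φ χ N 0 = 0 := by
  have h := nPol_smul T φ χ N 0 0
  rwa [zero_smul, C_0, zero_mul] at h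

lemma nPol_sub (T : Module.End R V) (φ : V →ₗ[R] R) (χ : R[X]) (N : ℕ) (v w : V) :
    nPol T φ χ N (v - w) = nPol T φ χ N v - nPol T φ χ N w := by
  have h := nPol_add T φ χ N (v - w) w
  rw [sub_add_cancel] at h
  rw [h]
  ring

lemma nPol_T (T : Module.End R V) (φ : V →ₗ[R] R) {χ : R[X]} {N : ℕ} (hdeg : χ.natDegree = N)
    (hχ : aeval T χ = 0) (w : V) :
    nPol T φ χ N (T w) = X * nPol T φ χ N w - C (φ w) * χ := by
  unfold nPol
  have h1 : ∑ l ∈ Finset.range (N + 1), C (χ.coeff l) * C (φ ((T ^ l) w)) = 0 := by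
    have h2 : (aeval T χ) w = ∑ l ∈ Finset.range (N + 1), χ.coeff l • (T ^ l) w := by
      rw [aeval_eq_sum_range, hdeg, LinearMap.sum_apply]
      rfl
    have h3 : φ ((aeval T χ) w) = ∑ l ∈ Finset.range (N + 1), χ.coeff l * φ ((T ^ l) w) := by
      rw [h2, map_sum]
      refine Finset.sum_congr rfl fun l _ => ?_
      rw [map_smul, smul_eq_mul]
    rw [hχ, LinearMap.zero_apply, map_zero] at h3
    simp only [← C_mul]
    rw [← map_sum, ← h3, C_0]
  have h4 : ∑ l ∈ Finset.range (N + 1), C (χ.coeff l) * X ^ l = χ := by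
    conv_rhs => rw [χ.as_sum_range_C_mul_X_pow, hdeg]
  have h5 : ∀ l ∈ Finset.range (N + 1), C (χ.coeff l) * gPol T φ l (T w) =
      X * (C (χ.coeff l) * gPol T φ l w) + C (χ.coeff l) * C (φ ((T ^ l) w)) -
      C (φ w) * (C (χ.coeff l) * X ^ l) := by
    intro l _
    rw [gPol_apply_T]
    ring
  rw [Finset.sum_congr rfl h5, Finset.sum_sub_distrib, Finset.sum_add_distrib, h1,
    ← Finset.mul_sum, ← Finset.mul_sum, h4, add_zero]

lemma gPol_degree (T : Module.End R V) (φ : V →ₗ[R] R) (l : ℕ) (w : V) :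
    (gPol T φ l w).degree < l := by
  unfold gPol
  refine (Polynomial.degree_sum_le _ _).trans_lt ?_
  rw [Finset.sup_lt_iff (by exact WithBot.bot_lt_coe l)]
  intro k hk
  refine (degree_C_mul_X_pow_le _ _).trans_lt ?_
  exact_mod_cast Finset.mem_range.mp hk

lemma nPol_degree (T : Module.End R V) (φ : V →ₗ[R] R) (χ : R[X]) (N : ℕ) (w : V) :
    (nPol T φ χ N w).degree < N := by
  rw [degree_lt_iff_coeff_zero]
  intro i hi
  unfold nPol
  rw [finsetSum_coeff]
  refine Finset.sum_eq_zero fun l hl => ?_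
  have hl' : l ≤ N := Nat.lt_succ_iff.mp (Finset.mem_range.mp hl)
  have h0 : (gPol T φ l w).coeff i = 0 := by
    refine coeff_eq_zero_of_degree_lt ((gPol_degree T φ l w).trans_le ?_)
    exact_mod_cast hl'.trans hi
  rw [coeff_C_mul, h0, mul_zero]

lemma gPol_coeff (T : Module.End R V) (φ : V →ₗ[R] R) {l : ℕ} (hl : 0 < l) (w : V) :
    (gPol T φ l w).coeff (l - 1) = φ w := by
  unfold gPol
  rw [finsetSum_coeff, Finset.sum_eq_single (l - 1)]
  · rw [coeff_C_mul_X_pow, if_pos rfl]
    simp
  · intro k _ hk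
    rw [coeff_C_mul_X_pow, if_neg (Ne.symm hk)]
  · intro h
    exact absurd (Finset.mem_range.mpr (by omega)) h

lemma nPol_coeff (T : Module.End R V) (φ : V →ₗ[R] R) {χ : R[X]} (hm : χ.Monic) {N : ℕ}
    (hdeg : χ.natDegree = N) (hN : 0 < N) (w : V) :
    (nPol T φ χ N w).coeff (N - 1) = φ w := by
  unfold nPol
  rw [finsetSum_coeff, Finset.sum_eq_single N]
  · rw [coeff_C_mul, gPol_coeff T φ hN]
    have : χ.coeff N = 1 := by
      rw [← hdeg]
      exact hm
    rw [this, one_mul]
  · intro l hl hlN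
    have hl' : l ≤ N := Nat.lt_succ_iff.mp (Finset.mem_range.mp hl)
    have h0 : (gPol T φ l w).coeff (N - 1) = 0 := by
      refine coeff_eq_zero_of_degree_lt ((gPol_degree T φ l w).trans_le ?_)
      have : l ≤ N - 1 := by omega
      exact_mod_cast this
    rw [coeff_C_mul, h0, mul_zero]
  · intro h
    exact absurd (Finset.mem_range.mpr (by omega)) h

lemma nPol_pow (T : Module.End R V) (φ : V →ₗ[R] R) {χ : R[X]} {N : ℕ}
    (hdeg : χ.natDegree = N) (hχ : aeval T χ = 0) (w : V) (t : ℕ) :
    ∃ q : R[X], X ^ t * nPol T φ χ N w = nPol T φ χ N ((T ^ t) w) + χ * q := by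
  induction t with
  | zero => exact ⟨0, by simp⟩
  | succ t ih =>
    obtain ⟨q, hq⟩ := ih
    refine ⟨C (φ ((T ^ t) w)) + X * q, ?_⟩
    have h1 : (T ^ (t + 1)) w = T ((T ^ t) w) := by
      rw [pow_succ']
      rfl
    rw [h1, nPol_T T φ hdeg hχ, pow_succ]
    calc X ^ t * X * nPol T φ χ N w = X * (X ^ t * nPol T φ χ N w) := by ring
      _ = X * (nPol T φ χ N ((T ^ t) w) + χ * q) := by rw [hq]
      _ = _ := by ring

/-- `(y - T) (∑_(l < e) u_l y^l) = w` modulo the monic polynomial `g` of degree `e`, in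
coordinates. -/
def Sol (T : Module.End R V) (w : V) (e : ℕ) (g : R[X]) (u : ℕ → V) : Prop :=
  ∀ l < e, T (u l) = (if l = 0 then 0 else u (l - 1)) - g.coeff l • u (e - 1) -
    (if l = 0 then w else 0)

/-- The polynomial of the values of `φ` on the coordinates. -/
noncomputable def uPol (φ : V →ₗ[R] R) (e : ℕ) (u : ℕ → V) : R[X] :=
  ∑ l ∈ Finset.range e, C (φ (u l)) * X ^ l

lemma uPol_degree (φ : V →ₗ[R] R) (e : ℕ) (u : ℕ → V) : (uPol φ e u).degree < e := by
  unfold uPol
  refine (Polynomial.degree_sum_le _ _).trans_lt ?_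
  rw [Finset.sup_lt_iff (by exact WithBot.bot_lt_coe e)]
  intro k hk
  refine (degree_C_mul_X_pow_le _ _).trans_lt ?_
  exact_mod_cast Finset.mem_range.mp hk

lemma uPol_coeff (φ : V →ₗ[R] R) {e : ℕ} (u : ℕ → V) {l : ℕ} (hl : l < e) :
    (uPol φ e u).coeff l = φ (u l) := by
  unfold uPol
  rw [finsetSum_coeff, Finset.sum_eq_single l]
  · rw [coeff_C_mul_X_pow, if_pos rfl]
  · intro k _ hk
    rw [coeff_C_mul_X_pow, if_neg (Ne.symm hk)]
  · intro h
    exact absurd (Finset.mem_range.mpr hl) h

/-- The basic identity: `χ U - P = g n(u_(e-1))`. -/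
lemma sol_identity (T : Module.End R V) (φ : V →ₗ[R] R) {χ : R[X]} {N : ℕ}
    (hdeg : χ.natDegree = N) (hχ : aeval T χ = 0) {w : V} {e : ℕ} (he : 0 < e) {g : R[X]}
    (hg : g.Monic) (hge : g.natDegree = e) {u : ℕ → V} (hs : Sol T w e g u) :
    χ * uPol φ e u - nPol T φ χ N w = g * nPol T φ χ N (u (e - 1)) := by
  have h1 : ∑ l ∈ Finset.range e, X ^ l * nPol T φ χ N (T (u l)) =
      X * ∑ l ∈ Finset.range e, X ^ l * nPol T φ χ N (u l) - χ * uPol φ e u := by
    unfold uPol
    rw [Finset.mul_sum, Finset.mul_sum, ← Finset.sum_sub_distrib]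
    refine Finset.sum_congr rfl fun l _ => ?_
    rw [nPol_T T φ hdeg hχ]
    ring
  have h2 : ∑ l ∈ Finset.range e, X ^ l * nPol T φ χ N (T (u l)) =
      ∑ l ∈ Finset.range e, X ^ l * nPol T φ χ N (if l = 0 then 0 else u (l - 1)) -
      (∑ l ∈ Finset.range e, C (g.coeff l) * X ^ l) * nPol T φ χ N (u (e - 1)) -
      ∑ l ∈ Finset.range e, X ^ l * nPol T φ χ N (if l = 0 then w else 0) := by
    rw [Finset.sum_mul, ← Finset.sum_sub_distrib, ← Finset.sum_sub_distrib]
    refine Finset.sum_congr rfl fun l hl => ?_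
    rw [hs l (Finset.mem_range.mp hl), nPol_sub, nPol_sub, nPol_smul]
    ring
  have h3 : ∑ l ∈ Finset.range e, X ^ l * nPol T φ χ N (if l = 0 then w else 0) =
      nPol T φ χ N w := by
    rw [Finset.sum_eq_single 0]
    · rw [if_pos rfl, pow_zero, one_mul]
    · intro l _ hl
      rw [if_neg hl, nPol_zero, mul_zero]
    · intro h
      exact absurd (Finset.mem_range.mpr he) h
  have h4 : ∑ l ∈ Finset.range e, X ^ l * nPol T φ χ N (if l = 0 then 0 else u (l - 1)) =
      X * ∑ l ∈ Finset.range e, X ^ l * nPol T φ χ N (u l) -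
      X ^ e * nPol T φ χ N (u (e - 1)) := by
    obtain ⟨e', rfl⟩ : ∃ e', e = e' + 1 := ⟨e - 1, by omega⟩
    rw [Finset.sum_range_succ']
    simp only [Nat.add_sub_cancel, if_true, nPol_zero, mul_zero, add_zero,
      Nat.succ_ne_zero, if_false]
    rw [Finset.mul_sum, Finset.sum_range_succ]
    have : ∑ l ∈ Finset.range e', X ^ (l + 1) * nPol T φ χ N (u l) =
        ∑ l ∈ Finset.range e', X * (X ^ l * nPol T φ χ N (u l)) := by
      refine Finset.sum_congr rfl fun l _ => ?_
      rw [pow_succ]
      ring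
    rw [this, pow_succ]
    ring
  have h5 : ∑ l ∈ Finset.range e, C (g.coeff l) * X ^ l = g - X ^ e := by
    have h6 : ∑ l ∈ Finset.range (e + 1), C (g.coeff l) * X ^ l = g := by
      conv_rhs => rw [g.as_sum_range_C_mul_X_pow, hge]
    rw [Finset.sum_range_succ] at h6
    have h7 : g.coeff e = 1 := by
      rw [← hge]
      exact hg
    rw [h7, C_1, one_mul] at h6
    exact eq_sub_of_add_eq h6
  rw [h2, h3, h4, h5] at h1
  linear_combination h1

/-- A rational function which equals the generating function gives the values on the orbit. -/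
theorem coeff_of_cross [Nontrivial R] (T : Module.End R V) (φ : V →ₗ[R] R) (w : V)
    {N : ℕ} (hN0 : 0 < N) {χ ν P : R[X]} (hχm : χ.Monic) (hχN : χ.natDegree = N)
    (hχ0 : aeval T χ = 0) (hν : ν.Monic) (hνN : ν.natDegree = N)
    (hcross : P * χ = ν * nPol T φ χ N w) (t : ℕ) :
    φ ((T ^ t) w) = ((X ^ t * P) %ₘ ν).coeff (N - 1) := by
  set P0 := nPol T φ χ N w with hP0
  have hνd : ν.degree = N := by
    rw [degree_eq_natDegree hν.ne_zero, hνN]
  have hχd : χ.degree = N := by
    rw [degree_eq_natDegree hχm.ne_zero, hχN]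
  obtain ⟨q, hq⟩ := nPol_pow T φ hχN hχ0 w t
  set r0 := nPol T φ χ N ((T ^ t) w) with hr0
  have hr0d : r0.degree < N := nPol_degree T φ χ N _
  set r := (X ^ t * P) %ₘ ν with hr
  have hrd : r.degree < N := by
    rw [hr, ← hνd]
    exact degree_modByMonic_lt _ hν
  have hdiv := modByMonic_add_div (X ^ t * P) ν
  set Q := (X ^ t * P) /ₘ ν with hQ
  have hkey : r * χ - r0 * ν = (q - Q) * (ν * χ) := by
    have e1 : r = X ^ t * P - ν * Q := by
      rw [← hdiv]
      ring
    have e2 : r0 = X ^ t * P0 - χ * q := by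
      rw [hq]
      ring
    rw [e1, e2]
    linear_combination (X ^ t) * hcross
  have hd : ∀ f g : R[X], f.degree < N → g.Monic → g.natDegree = N →
      (f * g).degree < ((N + N : ℕ) : WithBot ℕ) := by
    intro f g hf hg hgN
    rw [hg.degree_mul]
    rcases eq_or_ne f 0 with rfl | hf0
    · rw [degree_zero, WithBot.bot_add]
      exact WithBot.bot_lt_coe _
    · rw [degree_eq_natDegree hg.ne_zero, hgN, degree_eq_natDegree hf0]
      rw [degree_eq_natDegree hf0] at hf
      have hf' : f.natDegree < N := by exact_mod_cast hf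
      have : f.natDegree + N < N + N := by omega
      exact_mod_cast this
  have hqQ : q - Q = 0 := by
    by_contra hne
    have h1 : ((q - Q) * (ν * χ)).degree = (((q - Q).natDegree + (N + N) : ℕ) : WithBot ℕ) := by
      rw [(hν.mul hχm).degree_mul, hχm.degree_mul, hνd, hχd, degree_eq_natDegree hne]
      push_cast
      rfl
    have h2 : (r * χ - r0 * ν).degree < ((N + N : ℕ) : WithBot ℕ) :=
      (degree_sub_le _ _).trans_lt (max_lt (hd _ _ hrd hχm hχN) (hd _ _ hr0d hν hνN))
    rw [hkey, h1] at h2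
    have h3 : (q - Q).natDegree + (N + N) < N + N := by exact_mod_cast h2
    omega
  have heq : r * χ = r0 * ν := by
    rw [hqQ, zero_mul, sub_eq_zero] at hkey
    exact hkey
  have hc : ∀ f g : R[X], f.degree < N → g.Monic → g.natDegree = N →
      (f * g).coeff (N - 1 + N) = f.coeff (N - 1) := by
    intro f g hf hg hgN
    have h1 : (f * g).coeff (N - 1 + N) = f.coeff (N - 1) * g.coeff N := by
      refine coeff_mul_add_eq_of_natDegree_le ?_ hgN.le
      rcases eq_or_ne f 0 with rfl | hf0
      · simp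
      · rw [degree_eq_natDegree hf0] at hf
        have hf' : f.natDegree < N := by exact_mod_cast hf
        omega
    rw [h1]
    have : g.coeff N = 1 := by
      rw [← hgN]
      exact hg
    rw [this, mul_one]
  have h1 := hc r χ hrd hχm hχN
  have h2 := hc r0 ν hr0d hν hνN
  rw [heq, h2] at h1
  rw [← h1, hr0, nPol_coeff T φ hχm hχN hN0]

end ring

section free

variable {R : Type*} [CommRing R] [Nontrivial R] {N : ℕ}

lemma chi_deg (T : Module.End R (Fin N → R)) : (LinearMap.charpoly T).natDegree = N := by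
  rw [LinearMap.charpoly_natDegree, Module.finrank_fin_fun]

/-- Existence of the rational function. -/
theorem exists_sol_rational (T : Module.End R (Fin N → R)) (φ : (Fin N → R) →ₗ[R] R)
    (w : Fin N → R) :
    ∃ ν P : R[X], ν.Monic ∧ ν.natDegree = N ∧ P.degree < N ∧
      ∀ e, 0 < e → ∀ g : R[X], g.Monic → g.natDegree = e → ∀ u : ℕ → Fin N → R, Sol T w e g u →
        g ∣ ν * uPol φ e u - P :=
  ⟨LinearMap.charpoly T, nPol T φ (LinearMap.charpoly T) N w,
    LinearMap.charpoly_monic T, chi_deg T, nPol_degree T φ _ N w, fun _ he _ hg hge _ hs =>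
      ⟨_, sol_identity T φ (chi_deg T) (LinearMap.aeval_self_charpoly T) he hg hge hs⟩⟩

/-- The linear map whose fibre is the set of solutions. -/
def solMap (T : Module.End R (Fin N → R)) (e : ℕ) (g : R[X]) :
    (Fin e → Fin N → R) →ₗ[R] (Fin e → Fin N → R) where
  toFun u l := (if h : (l : ℕ) = 0 then 0 else u ⟨l - 1, by have := l.2; omega⟩) -
    g.coeff l • u ⟨e - 1, by have := l.2; omega⟩ - T (u l)
  map_add' u v := by
    funext l
    simp only [Pi.add_apply, map_add, smul_add]
    split_ifs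
    · abel
    · abel
  map_smul' c u := by
    funext l
    simp only [Pi.smul_apply, map_smul, RingHom.id_apply, smul_sub, smul_comm c (g.coeff l)]
    split_ifs
    · rw [smul_zero]
    · rfl

/-- Solvability for `g` prime to the characteristic polynomial. -/
theorem exists_sol [Finite R] (T : Module.End R (Fin N → R)) (w : Fin N → R) {e : ℕ} (he : 0 < e)
    {g : R[X]} (hg : g.Monic) (hge : g.natDegree = e)
    (hcop : IsCoprime g (LinearMap.charpoly T)) : ∃ u : ℕ → Fin N → R, Sol T w e g u := by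
  have hinj : Function.Injective (solMap T e g) := by
    rw [← LinearMap.ker_eq_bot, Submodule.eq_bot_iff]
    intro u hu
    have hu' : solMap T e g u = 0 := hu
    set u' : ℕ → Fin N → R := fun l => if h : l < e then u ⟨l, h⟩ else 0 with hu'def
    have hs : Sol T 0 e g u' := by
      intro l hl
      have h1 := congrFun hu' ⟨l, hl⟩
      have h2 : (if h : l = 0 then (0 : Fin N → R) else u ⟨l - 1, by omega⟩) -
        g.coeff l • u ⟨e - 1, by omega⟩ - T (u ⟨l, hl⟩) = 0 := h1
      have h3 : u' l = u ⟨l, hl⟩ := dif_pos hl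
      have h4 : u' (e - 1) = u ⟨e - 1, by omega⟩ := dif_pos (by omega)
      have h5 : (if l = 0 then (0 : Fin N → R) else u' (l - 1)) =
          if h : l = 0 then (0 : Fin N → R) else u ⟨l - 1, by omega⟩ := by
        by_cases h0 : l = 0
        · rw [if_pos h0, dif_pos h0]
        · rw [if_neg h0, dif_neg h0]
          exact dif_pos (by omega)
      rw [h3, h4, h5]
      have h6 : (if l = 0 then (0 : Fin N → R) else 0) = 0 := by split_ifs <;> rfl
      rw [h6, sub_zero]
      exact (sub_eq_zero.mp h2).symm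
    have hz : ∀ φ : (Fin N → R) →ₗ[R] R, ∀ l, l < e → φ (u' l) = 0 := by
      intro φ l hl
      have h1 := sol_identity T φ (chi_deg T) (LinearMap.aeval_self_charpoly T) he hg hge hs
      rw [nPol_zero, sub_zero] at h1
      have h2 : g ∣ uPol φ e u' := by
        have h3 : g ∣ LinearMap.charpoly T * uPol φ e u' := ⟨_, h1⟩
        exact hcop.dvd_of_dvd_mul_left h3
      have h4 : uPol φ e u' = 0 := by
        by_contra hne
        refine hg.not_dvd_of_degree_lt hne ?_ h2
        rw [degree_eq_natDegree hg.ne_zero, hge]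
        exact uPol_degree φ e u'
      rw [← uPol_coeff φ u' hl, h4, coeff_zero]
    funext ⟨l, hl⟩
    have h1 : u' l = u ⟨l, hl⟩ := dif_pos hl
    rw [← h1]
    funext j
    exact hz (LinearMap.proj j) l hl
  have hsurj := Finite.surjective_of_injective hinj
  obtain ⟨u, hu⟩ := hsurj (fun l => if (l : ℕ) = 0 then w else 0)
  refine ⟨fun l => if h : l < e then u ⟨l, h⟩ else 0, ?_⟩
  intro l hl
  have h1 := congrFun hu ⟨l, hl⟩
  have h2 : (if h : l = 0 then (0 : Fin N → R) else u ⟨l - 1, by omega⟩) -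
    g.coeff l • u ⟨e - 1, by omega⟩ - T (u ⟨l, hl⟩) = if l = 0 then w else 0 := h1
  have h5 : (if l = 0 then (0 : Fin N → R)
      else (fun l => if h : l < e then u ⟨l, h⟩ else 0) (l - 1)) =
      if h : l = 0 then (0 : Fin N → R) else u ⟨l - 1, by omega⟩ := by
    by_cases h0 : l = 0
    · rw [if_pos h0, dif_pos h0]
    · have h7 : l - 1 < e := by omega
      rw [if_neg h0, dif_neg h0]
      show (if h : l - 1 < e then u ⟨l - 1, h⟩ else 0) = u ⟨l - 1, h7⟩
      exact dif_pos h7
  rw [h5]
  have h8 : e - 1 < e := by omega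
  have h9 : (if h : e - 1 < e then u ⟨e - 1, h⟩ else 0) = u ⟨e - 1, h8⟩ := dif_pos h8
  show T (if h : l < e then u ⟨l, h⟩ else 0) = _ - g.coeff l •
    (if h : e - 1 < e then u ⟨e - 1, h⟩ else 0) - _
  rw [dif_pos hl, h9, ← h2]
  abel

end free

section pp

/-- A polynomial of degree less than `2 N` over the field with `p` elements which is divisible by
all monic polynomials of degree `e` prime to `χ` is zero. -/
theorem eq_zero_of_dvd_field {p : ℕ} [Fact p.Prime] {N e : ℕ} (he : 0 < e)
    (hpe : 3 * N ≤ p ^ e) {χ D : (ZMod p)[X]} (hχ : χ.Monic) (hχN : χ.natDegree = N)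
    (hD : D.degree < ((N + N : ℕ) : WithBot ℕ))
    (h : ∀ g : (ZMod p)[X], g.Monic → g.natDegree = e → IsCoprime g χ → g ∣ D) : D = 0 := by
  classical
  have : Fintype (GaloisField p e) := Fintype.ofFinite _
  have hK : finrank (ZMod p) (GaloisField p e) = e := GaloisField.finrank p he.ne'
  have hcard : Fintype.card (GaloisField p e) = p ^ e := by
    rw [← Nat.card_eq_fintype_card]
    exact GaloisField.card p e he.ne'
  have hvan : ∀ a : GaloisField p e, aeval a χ ≠ 0 → aeval a D = 0 := by
    intro a ha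
    have hint : IsIntegral (ZMod p) a := IsIntegral.of_finite (ZMod p) a
    have hmm : (minpoly (ZMod p) a).Monic := minpoly.monic hint
    have hdvd : (minpoly (ZMod p) a).natDegree ∣ e := by
      have h1 := minpoly.degree_dvd hint
      rwa [hK] at h1
    obtain ⟨c, hc⟩ := hdvd
    have hc0 : c ≠ 0 := by
      rintro rfl
      omega
    have hg : ((minpoly (ZMod p) a) ^ c).Monic := hmm.pow c
    have hge : ((minpoly (ZMod p) a) ^ c).natDegree = e := by
      rw [hmm.natDegree_pow, mul_comm]
      exact hc.symm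
    have hcop : IsCoprime ((minpoly (ZMod p) a) ^ c) χ := by
      refine IsCoprime.pow_left ?_
      rw [(minpoly.irreducible hint).coprime_iff_not_dvd, minpoly.dvd_iff]
      exact ha
    have h5 : minpoly (ZMod p) a ∣ D := (dvd_pow_self _ hc0).trans (h _ hg hge hcop)
    rwa [minpoly.dvd_iff] at h5
  have hinj : Function.Injective (algebraMap (ZMod p) (GaloisField p e)) :=
    (algebraMap (ZMod p) (GaloisField p e)).injective
  apply Polynomial.map_injective (algebraMap (ZMod p) (GaloisField p e)) hinj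
  set χK := χ.map (algebraMap (ZMod p) (GaloisField p e)) with hχK
  have hχKm : χK.Monic := hχ.map _
  have hχKN : χK.natDegree = N := by
    rw [hχK, hχ.natDegree_map, hχN]
  have hroots : χK.roots.toFinset.card ≤ N := by
    refine (Multiset.toFinset_card_le _).trans ?_
    rw [← hχKN]
    exact card_roots' χK
  rw [Polynomial.map_zero]
  refine Polynomial.eq_of_degree_sub_lt_of_eval_finset_eq (Finset.univ \ χK.roots.toFinset) ?_ ?_
  · have hA : (Finset.univ \ χK.roots.toFinset).card =
        Fintype.card (GaloisField p e) - χK.roots.toFinset.card := by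
      rw [Finset.card_sdiff_of_subset (Finset.subset_univ _), Finset.card_univ]
    have hA2 : N + N ≤ (Finset.univ \ χK.roots.toFinset).card := by
      rw [hA]
      omega
    rw [sub_zero]
    exact ((degree_map_le).trans_lt hD).trans_le (by exact_mod_cast hA2)
  · intro a ha
    have ha' : aeval a χ ≠ 0 := by
      intro h0
      apply (Finset.mem_sdiff.mp ha).2
      rw [Multiset.mem_toFinset, mem_roots hχKm.ne_zero, IsRoot.def, hχK, eval_map_algebraMap]
      exact h0
    rw [eval_map_algebraMap, eval_zero]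
    exact hvan a ha'

variable {p k q : ℕ}

lemma cast_zero_iff [NeZero q] (hpq : p ∣ q) (x : ZMod q) :
    ZMod.castHom hpq (ZMod p) x = 0 ↔ p ∣ x.val := by
  have h1 : ZMod.castHom hpq (ZMod p) x = ((x.val : ℕ) : ZMod p) := by
    conv_lhs => rw [← ZMod.natCast_zmod_val x]
    rw [map_natCast]
  rw [h1, ZMod.natCast_eq_zero_iff]

lemma nilp [NeZero q] (hpq : p ∣ q) (hq : q = p ^ k) {x : ZMod q}
    (hx : ZMod.castHom hpq (ZMod p) x = 0) : IsNilpotent x := by
  rw [cast_zero_iff] at hx
  refine ⟨k, ?_⟩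
  rw [← ZMod.natCast_zmod_val x, ← Nat.cast_pow, ZMod.natCast_eq_zero_iff]
  conv_lhs => rw [hq]
  exact pow_dvd_pow_of_dvd hx k

lemma coprime_lift [NeZero q] (hpq : p ∣ q) (hq : q = p ^ k) {g χ : (ZMod q)[X]}
    (h : IsCoprime (g.map (ZMod.castHom hpq (ZMod p))) (χ.map (ZMod.castHom hpq (ZMod p)))) :
    IsCoprime g χ := by
  obtain ⟨a', b', hab⟩ := h
  have hsurj : Function.Surjective (ZMod.castHom hpq (ZMod p)) := ZMod.castHom_surjective hpq
  obtain ⟨a, rfl⟩ := Polynomial.map_surjective _ hsurj a'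
  obtain ⟨b, rfl⟩ := Polynomial.map_surjective _ hsurj b'
  have hn : IsNilpotent (a * g + b * χ - 1) := by
    rw [Polynomial.isNilpotent_iff]
    intro i
    apply nilp hpq hq
    have h1 : ((a * g + b * χ - 1).map (ZMod.castHom hpq (ZMod p))).coeff i = 0 := by
      rw [Polynomial.map_sub, Polynomial.map_add, Polynomial.map_mul, Polynomial.map_mul,
        Polynomial.map_one, hab, sub_self, coeff_zero]
    rwa [coeff_map] at h1
  have hu := hn.isUnit_one_add
  obtain ⟨v, hv⟩ := hu.exists_left_inv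
  refine ⟨v * a, v * b, ?_⟩
  have e : (1 : (ZMod q)[X]) + (a * g + b * χ - 1) = a * g + b * χ := by ring
  rw [e] at hv
  rw [← hv]
  ring

/-- A polynomial of degree less than `2 N` over `ℤ/p^k` which is divisible by all monic polynomials
of degree `e` prime to `χ` is zero. -/
theorem eq_zero_of_dvd [hp : Fact p.Prime] (hk : 0 < k) (hq : q = p ^ k) {N e : ℕ} (he : 0 < e)
    (hpe : 3 * N ≤ p ^ e) {χ Δ : (ZMod q)[X]} (hχ : χ.Monic) (hχN : χ.natDegree = N)
    (hΔ : Δ.degree < ((N + N : ℕ) : WithBot ℕ))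
    (h : ∀ g : (ZMod q)[X], g.Monic → g.natDegree = e → IsCoprime g χ → g ∣ Δ) : Δ = 0 := by
  have hp0 : p ≠ 0 := hp.out.ne_zero
  have hq0 : q ≠ 0 := by
    rw [hq]
    exact pow_ne_zero _ hp0
  haveI : NeZero q := ⟨hq0⟩
  have hpq : p ∣ q := by
    rw [hq]
    exact dvd_pow_self p hk.ne'
  have hq1 : 1 < q := by
    rw [hq]
    exact Nat.one_lt_pow hk.ne' hp.out.one_lt
  haveI : Nontrivial (ZMod q) := ZMod.nontrivial_iff.2 hq1.ne'
  set π := ZMod.castHom hpq (ZMod p) with hπ
  have hsurj : Function.Surjective π := ZMod.castHom_surjective hpq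
  have hχ' : (χ.map π).Monic := hχ.map _
  have hχN' : (χ.map π).natDegree = N := by rw [hχ.natDegree_map, hχN]
  -- divisibility by `p ^ i`
  have key : ∀ i ≤ k, ∃ D : (ZMod q)[X], D.degree < ((N + N : ℕ) : WithBot ℕ) ∧
      Δ = C ((p : ZMod q) ^ i) * D := by
    intro i
    induction i with
    | zero =>
      intro _
      refine ⟨Δ, hΔ, ?_⟩
      rw [pow_zero, C_1, one_mul]
    | succ i ih =>
      intro hi
      obtain ⟨D, hDd, hD⟩ := ih (by omega)
      have hD0 : D.map π = 0 := by
        refine eq_zero_of_dvd_field he hpe hχ' hχN' ((degree_map_le).trans_lt hDd) ?_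
        intro g' hg' hge' hcop'
        have hlift : g' ∈ Polynomial.lifts π := by
          rw [Polynomial.mem_lifts]
          exact Polynomial.map_surjective π hsurj g'
        obtain ⟨g, hgm, hgd, hgmon⟩ := Polynomial.lifts_and_natDegree_eq_and_monic hlift hg'
        have hge : g.natDegree = e := by rw [hgd, hge']
        have hcop : IsCoprime g χ := by
          apply coprime_lift hpq hq
          rw [← hπ, hgm]
          exact hcop'
        have hgΔ := h g hgmon hge hcop
        -- the remainder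
        have hdiv := modByMonic_add_div D g
        set Rm := D %ₘ g with hRm
        have hRmd : Rm.degree < e := by
          have h1 := degree_modByMonic_lt D hgmon
          rwa [degree_eq_natDegree hgmon.ne_zero, hge] at h1
        have hzero : C ((p : ZMod q) ^ i) * Rm = 0 := by
          by_contra hne
          refine hgmon.not_dvd_of_degree_lt hne ?_ ?_
          · rw [degree_eq_natDegree hgmon.ne_zero, hge]
            have h2 : (C ((p : ZMod q) ^ i) * Rm).degree ≤ Rm.degree := by
              rw [degree_le_iff_coeff_zero]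
              intro n hn
              rw [coeff_C_mul, coeff_eq_zero_of_degree_lt hn, mul_zero]
            exact h2.trans_lt hRmd
          · have h3 : C ((p : ZMod q) ^ i) * Rm = Δ - g * (C ((p : ZMod q) ^ i) * (D /ₘ g)) := by
              rw [hD]
              linear_combination (C ((p : ZMod q) ^ i)) * hdiv
            rw [h3]
            exact dvd_sub hgΔ (dvd_mul_right _ _)
        have hRm0 : Rm.map π = 0 := by
          ext n
          rw [coeff_map, coeff_zero, hπ, cast_zero_iff]
          have h4 : (p : ZMod q) ^ i * Rm.coeff n = 0 := by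
            rw [← coeff_C_mul, hzero, coeff_zero]
          rw [← ZMod.natCast_zmod_val (Rm.coeff n), ← Nat.cast_pow, ← Nat.cast_mul,
            ZMod.natCast_eq_zero_iff] at h4
          have h5 : p ^ i * p ∣ p ^ i * (Rm.coeff n).val := by
            refine Dvd.dvd.trans ?_ h4
            rw [← pow_succ]
            conv_rhs => rw [hq]
            exact pow_dvd_pow p hi
          exact Nat.dvd_of_mul_dvd_mul_left (pow_pos hp.out.pos i) h5
        have h6 : D.map π = g' * (D /ₘ g).map π := by
          conv_lhs => rw [← hdiv]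
          rw [Polynomial.map_add, hRm0, zero_add, Polynomial.map_mul, hgm]
        exact ⟨_, h6⟩
      -- divide by `p`
      have hs : ∀ j, ∃ s : ZMod q, D.coeff j = (p : ZMod q) * s := by
        intro j
        have h7 : π (D.coeff j) = 0 := by
          rw [← coeff_map, hD0, coeff_zero]
        rw [hπ, cast_zero_iff] at h7
        obtain ⟨c, hc⟩ := h7
        refine ⟨(c : ZMod q), ?_⟩
        rw [← ZMod.natCast_zmod_val (D.coeff j), hc]
        push_cast
        rfl
      choose s hs using hs
      refine ⟨∑ j ∈ Finset.range (N + N), C (s j) * X ^ j, ?_, ?_⟩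
      · rw [degree_lt_iff_coeff_zero]
        intro m hm
        rw [finsetSum_coeff]
        refine Finset.sum_eq_zero fun j hj => ?_
        rw [coeff_C_mul_X_pow, if_neg]
        rintro rfl
        exact absurd (Finset.mem_range.1 hj) (not_lt.2 hm)
      · have h8 : D = C (p : ZMod q) * ∑ j ∈ Finset.range (N + N), C (s j) * X ^ j := by
          ext m
          rw [coeff_C_mul, finsetSum_coeff]
          by_cases hm : m < N + N
          · rw [Finset.sum_eq_single m]
            · rw [coeff_C_mul_X_pow, if_pos rfl]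
              exact hs m
            · intro b _ hb
              rw [coeff_C_mul_X_pow, if_neg (Ne.symm hb)]
            · intro hmm
              exact absurd (Finset.mem_range.2 hm) hmm
          · rw [coeff_eq_zero_of_degree_lt, Finset.sum_eq_zero, mul_zero]
            · intro j hj
              rw [coeff_C_mul_X_pow, if_neg]
              rintro rfl
              exact hm (Finset.mem_range.1 hj)
            · refine hDd.trans_le ?_
              exact_mod_cast not_lt.1 hm
        rw [hD]
        conv_lhs => rw [h8]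
        rw [pow_succ, C_mul]
        ring
  obtain ⟨D, _, hD⟩ := key k le_rfl
  have h9 : (p : ZMod q) ^ k = 0 := by
    rw [← Nat.cast_pow, ZMod.natCast_eq_zero_iff, hq]
  rw [hD, h9, C_0, zero_mul]

/-- Evaluation over `ℤ/p^k`, with a degree `e` such that `3 N ≤ p ^ e`. -/
theorem sol_coeff (hp : p.Prime) (hk : 0 < k) (hq : q = p ^ k) {N e : ℕ} (hN0 : 0 < N)
    (he : 0 < e) (hpe : 3 * N ≤ p ^ e) (T : Module.End (ZMod q) (Fin N → ZMod q))
    (φ : (Fin N → ZMod q) →ₗ[ZMod q] ZMod q) (w : Fin N → ZMod q) {ν P : (ZMod q)[X]}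
    (hν : ν.Monic) (hνN : ν.natDegree = N) (hP : P.degree < N)
    (h : ∀ g : (ZMod q)[X], g.Monic → g.natDegree = e → ∀ u : ℕ → Fin N → ZMod q, Sol T w e g u →
      g ∣ ν * uPol φ e u - P) (t : ℕ) :
    φ ((T ^ t) w) = ((X ^ t * P) %ₘ ν).coeff (N - 1) := by
  haveI : Fact p.Prime := ⟨hp⟩
  have hq0 : q ≠ 0 := by
    rw [hq]
    exact pow_ne_zero _ hp.ne_zero
  haveI : NeZero q := ⟨hq0⟩
  have hq1 : 1 < q := by
    rw [hq]
    exact Nat.one_lt_pow hk.ne' hp.one_lt
  haveI : Nontrivial (ZMod q) := ZMod.nontrivial_iff.2 hq1.ne'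
  have hχm := LinearMap.charpoly_monic T
  have hχN := chi_deg T
  have hχ0 := LinearMap.aeval_self_charpoly T
  refine coeff_of_cross T φ w hN0 hχm hχN hχ0 hν hνN ?_ t
  rw [← sub_eq_zero]
  have hd : ∀ f g : (ZMod q)[X], f.degree < N → g.Monic → g.natDegree = N →
      (f * g).degree < ((N + N : ℕ) : WithBot ℕ) := by
    intro f g hf hg hgN
    rw [hg.degree_mul]
    rcases eq_or_ne f 0 with rfl | hf0
    · rw [degree_zero, WithBot.bot_add]
      exact WithBot.bot_lt_coe _
    · rw [degree_eq_natDegree hg.ne_zero, hgN, degree_eq_natDegree hf0]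
      rw [degree_eq_natDegree hf0] at hf
      have hf' : f.natDegree < N := by exact_mod_cast hf
      have : f.natDegree + N < N + N := by omega
      exact_mod_cast this
  refine eq_zero_of_dvd hk hq he hpe hχm hχN ?_ ?_
  · refine (degree_sub_le _ _).trans_lt (max_lt (hd _ _ hP hχm hχN) ?_)
    rw [mul_comm]
    exact hd _ _ (nPol_degree T φ _ N w) hν hνN
  · intro g hg hge hcop
    obtain ⟨u, hu⟩ := exists_sol T w he hg hge hcop
    have h1 := h g hg hge u hu
    have h2 : g ∣ LinearMap.charpoly T * uPol φ e u - nPol T φ (LinearMap.charpoly T) N w :=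
      ⟨_, sol_identity T φ hχN hχ0 he hg hge hu⟩
    have h4 := dvd_sub (h2.mul_left ν) (h1.mul_left (LinearMap.charpoly T))
    have e1 : ν * (LinearMap.charpoly T * uPol φ e u -
        nPol T φ (LinearMap.charpoly T) N w) -
        LinearMap.charpoly T * (ν * uPol φ e u - P) =
        P * LinearMap.charpoly T - ν * nPol T φ (LinearMap.charpoly T) N w := by
      ring
    rwa [e1] at h4

end pp

end Pool.Agent.SolR
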