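import Mathlib

/-!
Two facts of finite linear algebra: the dimension of a subspace of a finite field is tested by
disjointness from a multiple of a second subspace, and double annihilators in products of cyclic
groups.
-/

namespace Pool.Agent.H63AB

open Module

section dim

variable {F K : Type*} [Field F] [Field K] [Algebra F K] [Fintype F] [Fintype K]

/-- `V` and `a W` meet only in zero for some `a ≠ 0` iff the dimensions add up to at most the
dimension of the field. -/
theorem exists_disjoint_iff (V W : Submodule F K) :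
    (∃ a : K, a ≠ 0 ∧ ∀ v ∈ V, ∀ w ∈ W, v = a * w → v = 0) ↔
      finrank F V + finrank F W ≤ finrank F K := by
  classical
  have : Module.Finite F K := Module.Finite.of_finite
  constructor
  · rintro ⟨a, ha, h⟩
    have hinj : Function.Injective (LinearMap.mulLeft F a) := by
      intro x y hxy
      exact mul_left_cancel₀ ha hxy
    have hfin : finrank F (W.map (LinearMap.mulLeft F a)) = finrank F W :=
      (LinearEquiv.finrank_eq (Submodule.equivMapOfInjective _ hinj W)).symm
    have hdisj : V ⊓ W.map (LinearMap.mulLeft F a) = ⊥ := by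
      rw [eq_bot_iff]
      rintro x ⟨hx, hx'⟩
      obtain ⟨w, hw, rfl⟩ := hx'
      exact h _ hx w hw rfl
    have h2 := Submodule.finrank_sup_add_finrank_inf_eq V (W.map (LinearMap.mulLeft F a))
    rw [hdisj, finrank_bot, add_zero] at h2
    rw [← hfin, ← h2]
    exact Submodule.finrank_le _
  · intro hle
    by_contra hcon
    push Not at hcon
    have hq : 1 < Fintype.card F := Fintype.one_lt_card
    have hm : 1 ≤ finrank F K := Module.finrank_pos
    set q := Fintype.card F with hqdef
    have cK : Fintype.card K = q ^ finrank F K := Module.card_eq_pow_finrank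
    have cV : Fintype.card V = q ^ finrank F V := Module.card_eq_pow_finrank
    have cW : Fintype.card W = q ^ finrank F W := Module.card_eq_pow_finrank
    -- the injection
    have hchoice : ∀ a : {a : K // a ≠ 0}, ∃ x : {v : V // v ≠ 0} × {w : W // w ≠ 0},
        ((x.1 : V) : K) = a * ((x.2 : W) : K) := by
      rintro ⟨a, ha⟩
      obtain ⟨v, hv, w, hw, h1, h2⟩ := hcon a ha
      have hw0 : w ≠ 0 := by
        rintro rfl
        apply h2
        rw [h1, mul_zero]
      exact ⟨(⟨⟨v, hv⟩, fun h => h2 (congrArg Subtype.val h)⟩,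
        ⟨⟨w, hw⟩, fun h => hw0 (congrArg Subtype.val h)⟩), h1⟩
    choose φ hφ using hchoice
    have hinj : Function.Injective φ := by
      intro a b hab
      have h1 := hφ a
      have h2 := hφ b
      rw [hab] at h1
      rw [h1] at h2
      have hw : (((φ b).2 : W) : K) ≠ 0 := fun h => (φ b).2.2 (Subtype.ext h)
      exact Subtype.ext (mul_right_cancel₀ hw h2)
    have hcard := Fintype.card_le_of_injective φ hinj
    rw [Fintype.card_prod, Fintype.card_subtype_compl, Fintype.card_subtype_compl,
      Fintype.card_subtype_compl, Fintype.card_subtype_eq, Fintype.card_subtype_eq,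
      Fintype.card_subtype_eq, cK, cV, cW] at hcard
    set x := q ^ finrank F V with hx
    set y := q ^ finrank F W with hy
    have hx1 : 1 ≤ x := Nat.one_le_pow _ _ (by omega)
    have hy1 : 1 ≤ y := Nat.one_le_pow _ _ (by omega)
    have hxy : x * y ≤ q ^ finrank F K := by
      rw [hx, hy, ← pow_add]
      exact Nat.pow_le_pow_right (by omega) hle
    have hqm : q ≤ q ^ finrank F K := by
      calc q = q ^ 1 := (pow_one q).symm
        _ ≤ _ := Nat.pow_le_pow_right (by omega) hm
    obtain ⟨x', hx'⟩ : ∃ x', x = x' + 1 := ⟨x - 1, by omega⟩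
    obtain ⟨y', hy'⟩ : ∃ y', y = y' + 1 := ⟨y - 1, by omega⟩
    rw [hx', hy'] at hxy hcard
    simp only [Nat.add_sub_cancel] at hcard
    have e : (x' + 1) * (y' + 1) = x' * y' + x' + y' + 1 := by ring
    rw [e] at hxy
    have hx0 : x' = 0 := by omega
    have hy0 : y' = 0 := by omega
    rw [hx0, zero_mul] at hcard
    omega

end dim

section dual

lemma circ_torsion {m : ℕ} (hm : 0 < m) (z : AddCircle (1 : ℚ)) (hz : m • z = 0) :
    ∃ y : ℕ, y < m ∧ z = ((y / m : ℚ) : AddCircle (1 : ℚ)) := by
  obtain ⟨r, rfl⟩ := QuotientAddGroup.mk_surjective z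
  have h1 : ((m • r : ℚ) : AddCircle (1 : ℚ)) = 0 := hz
  rw [AddCircle.coe_eq_zero_iff] at h1
  obtain ⟨n, hn⟩ := h1
  have hm' : (m : ℚ) ≠ 0 := by exact_mod_cast hm.ne'
  have hr : r = n / m := by
    rw [eq_div_iff hm']
    simp only [zsmul_eq_mul, mul_one, nsmul_eq_mul] at hn
    linarith
  have hmz : (0 : ℤ) < m := by exact_mod_cast hm
  refine ⟨(n % m).toNat, ?_, ?_⟩
  · have := Int.emod_lt_of_pos n hmz
    have h0 := Int.emod_nonneg n hmz.ne'
    omega
  · have h0 := Int.emod_nonneg n hmz.ne'
    have e : (((n % m).toNat : ℕ) : ℚ) = ((n % m : ℤ) : ℚ) := by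
      rw [← Int.cast_natCast, Int.toNat_of_nonneg h0]
    rw [e]
    have h2 : r - ((n % m : ℤ) : ℚ) / m = ((n / m : ℤ) : ℚ) := by
      have h3 : (n : ℚ) = ((n % m : ℤ) : ℚ) + m * ((n / m : ℤ) : ℚ) := by
        exact_mod_cast (Int.emod_add_mul_ediv n m).symm
      rw [hr, h3]
      field_simp
      ring
    have h4 : ((r - ((n % m : ℤ) : ℚ) / m : ℚ) : AddCircle (1 : ℚ)) = 0 := by
      rw [h2, AddCircle.coe_eq_zero_iff]
      exact ⟨n / m, by simp⟩
    rw [AddCircle.coe_sub, sub_eq_zero] at h4
    exact h4

/-- Double annihilator in a product of cyclic groups, with digits. -/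
theorem mem_iff_annihilator {k : ℕ} (m : Fin k → ℕ) (hm : ∀ i, 0 < m i) (M : ℕ) (hM : 0 < M)
    (hdvd : ∀ i, m i ∣ M) (H : AddSubgroup (∀ i, ZMod (m i))) (x : ∀ i, ZMod (m i)) :
    x ∈ H ↔ ∀ y : Fin k → ℕ, (∀ i, y i < m i) →
      (∀ h ∈ H, M ∣ ∑ i, (h i).val * y i * (M / m i)) →
      M ∣ ∑ i, (x i).val * y i * (M / m i) := by
  classical
  constructor
  · intro hx y _ hy
    exact hy x hx
  · intro hall
    by_contra hx
    have hx' : (QuotientAddGroup.mk x : (∀ i, ZMod (m i)) ⧸ H) ≠ 0 := by
      rwa [Ne, QuotientAddGroup.eq_zero_iff]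
    obtain ⟨c, hc⟩ := CharacterModule.exists_character_apply_ne_zero_of_ne_zero hx'
    set χ : (∀ i, ZMod (m i)) →+ AddCircle (1 : ℚ) :=
      (c : ((∀ i, ZMod (m i)) ⧸ H) →+ AddCircle (1 : ℚ)).comp (QuotientAddGroup.mk' H) with hχ
    have hχH : ∀ h ∈ H, χ h = 0 := by
      intro h hh
      have : (QuotientAddGroup.mk' H) h = 0 := (QuotientAddGroup.eq_zero_iff h).mpr hh
      show (c : ((∀ i, ZMod (m i)) ⧸ H) →+ AddCircle (1 : ℚ)) ((QuotientAddGroup.mk' H) h) = 0
      rw [this]
      exact map_zero _
    have htor : ∀ i, m i • χ (Pi.single i 1) = 0 := by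
      intro i
      rw [← map_nsmul, ← Pi.single_smul]
      have : (m i) • (1 : ZMod (m i)) = 0 := by
        rw [nsmul_eq_mul, mul_one]
        exact ZMod.natCast_self _
      rw [this, Pi.single_zero, map_zero]
    choose y hy1 hy2 using fun i => circ_torsion (hm i) _ (htor i)
    have hM' : (M : ℚ) ≠ 0 := by exact_mod_cast hM.ne'
    have hval : ∀ z : ∀ i, ZMod (m i), χ z =
        (((∑ i, (z i).val * y i * (M / m i) : ℕ) / M : ℚ) : AddCircle (1 : ℚ)) := by
      intro z
      have e1 : z = ∑ i, (z i).val • Pi.single (M := fun i => ZMod (m i)) i (1 : ZMod (m i)) := by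
        funext j
        rw [Finset.sum_apply]
        simp only [Pi.smul_apply]
        rw [Finset.sum_eq_single j]
        · haveI : NeZero (m j) := ⟨(hm j).ne'⟩
          rw [Pi.single_eq_same, nsmul_eq_mul, mul_one, ZMod.natCast_zmod_val]
        · intro i _ hij
          rw [Pi.single_eq_of_ne (Ne.symm hij), smul_zero]
        · intro h
          exact absurd (Finset.mem_univ j) h
      conv_lhs => rw [e1]
      rw [map_sum]
      have e2 : ∀ i, χ ((z i).val • Pi.single (M := fun i => ZMod (m i)) i (1 : ZMod (m i))) =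
          ((((z i).val * y i * (M / m i) : ℕ) / M : ℚ) : AddCircle (1 : ℚ)) := by
        intro i
        rw [map_nsmul, hy2 i, ← AddCircle.coe_nsmul]
        congr 1
        obtain ⟨d, hd⟩ := hdvd i
        have hmi : (m i : ℚ) ≠ 0 := by exact_mod_cast (hm i).ne'
        have hd0 : (d : ℚ) ≠ 0 := by
          intro h
          apply hM'
          rw [hd]
          push_cast
          rw [h, mul_zero]
        have e3 : M / m i = d := by
          rw [hd, Nat.mul_div_cancel_left _ (hm i)]
        rw [e3, hd]
        push_cast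
        rw [nsmul_eq_mul]
        field_simp
      rw [Finset.sum_congr rfl fun i _ => e2 i]
      push_cast
      rw [Finset.sum_div]
      exact (map_sum (QuotientAddGroup.mk' (AddSubgroup.zmultiples (1 : ℚ))) _ _).symm
    have hzero : ∀ N : ℕ, (((N / M : ℚ)) : AddCircle (1 : ℚ)) = 0 ↔ M ∣ N := by
      intro N
      rw [AddCircle.coe_eq_zero_iff]
      constructor
      · rintro ⟨n, hn⟩
        have h1 : (n : ℚ) * M = N := by
          simp only [zsmul_eq_mul, mul_one] at hn
          rw [hn]
          field_simp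
        have h2 : (n : ℤ) * M = N := by exact_mod_cast h1
        exact Int.natCast_dvd_natCast.mp ⟨n, by rw [← h2]; ring⟩
      · rintro ⟨d, rfl⟩
        refine ⟨d, ?_⟩
        simp only [zsmul_eq_mul, mul_one]
        push_cast
        field_simp
    have hcx : χ x ≠ 0 := hc
    apply hcx
    rw [hval, hzero]
    refine hall y hy1 fun h hh => ?_
    rw [← hzero, ← hval]
    exact hχH h hh

end dual

end Pool.Agent.H63AB
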