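import Mathlib

/-!
The values `φ (T^t w)` of a linear functional on the orbit of a vector under an endomorphism `T` of
a space of dimension `N`, in terms of the resolvents `u`, `a u - T u = w`, at `2 N` elements `a` of
the field: they are the coefficients of a rational function `P / ν` with `ν` monic of degree `N`,
which is determined by its values.
-/

namespace Pool.Agent.H63AB

open Module Polynomial

variable {F V : Type*} [Field F] [AddCommGroup V] [Module F V]

/-- `G_l(w) = sum_(k < l) φ(T^(l-1-k) w) X^k`. -/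
noncomputable def gPol (T : Module.End F V) (φ : V →ₗ[F] F) (l : ℕ) (w : V) : F[X] :=
  ∑ k ∈ Finset.range l, C (φ ((T ^ (l - 1 - k)) w)) * X ^ k

lemma gPol_apply_T (T : Module.End F V) (φ : V →ₗ[F] F) (l : ℕ) (w : V) :
    gPol T φ l (T w) = X * gPol T φ l w + C (φ ((T ^ l) w)) - C (φ w) * X ^ l := by
  unfold gPol
  have h1 : X * ∑ k ∈ Finset.range l, C (φ ((T ^ (l - 1 - k)) w)) * X ^ k =
      ∑ k ∈ Finset.range l, C (φ ((T ^ (l - (k + 1))) w)) * X ^ (k + 1) := by
    rw [Finset.mul_sum]
    refine Finset.sum_congr rfl fun k _ => ?_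
    have : l - 1 - k = l - (k + 1) := by omega
    rw [this, pow_succ]
    ring
  have h2 : ∑ k ∈ Finset.range (l + 1), C (φ ((T ^ (l - k)) w)) * X ^ k =
      ∑ k ∈ Finset.range l, C (φ ((T ^ (l - (k + 1))) w)) * X ^ (k + 1) +
      C (φ ((T ^ l) w)) := by
    rw [Finset.sum_range_succ']
    simp
  have h3 : ∑ k ∈ Finset.range (l + 1), C (φ ((T ^ (l - k)) w)) * X ^ k =
      ∑ k ∈ Finset.range l, C (φ ((T ^ (l - 1 - k)) (T w))) * X ^ k + C (φ w) * X ^ l := by
    rw [Finset.sum_range_succ]
    congr 1
    · refine Finset.sum_congr rfl fun k hk => ?_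
      have hk' := Finset.mem_range.mp hk
      have : l - k = (l - 1 - k) + 1 := by omega
      rw [this, pow_succ]
      rfl
    · simp
  rw [h1]
  rw [h2] at h3
  linear_combination -h3

/-- The numerator polynomial. -/
noncomputable def nPol (T : Module.End F V) (φ : V →ₗ[F] F) (χ : F[X]) (N : ℕ) (w : V) : F[X] :=
  ∑ l ∈ Finset.range (N + 1), C (χ.coeff l) * gPol T φ l w

lemma gPol_add (T : Module.End F V) (φ : V →ₗ[F] F) (l : ℕ) (v w : V) :
    gPol T φ l (v + w) = gPol T φ l v + gPol T φ l w := by
  unfold gPol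
  rw [← Finset.sum_add_distrib]
  refine Finset.sum_congr rfl fun k _ => ?_
  rw [map_add, map_add, C_add, add_mul]

lemma gPol_smul (T : Module.End F V) (φ : V →ₗ[F] F) (l : ℕ) (c : F) (w : V) :
    gPol T φ l (c • w) = C c * gPol T φ l w := by
  unfold gPol
  rw [Finset.mul_sum]
  refine Finset.sum_congr rfl fun k _ => ?_
  rw [map_smul, map_smul, smul_eq_mul, C_mul]
  ring

lemma nPol_add (T : Module.End F V) (φ : V →ₗ[F] F) (χ : F[X]) (N : ℕ) (v w : V) :
    nPol T φ χ N (v + w) = nPol T φ χ N v + nPol T φ χ N w := by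
  unfold nPol
  rw [← Finset.sum_add_distrib]
  refine Finset.sum_congr rfl fun l _ => ?_
  rw [gPol_add, mul_add]

lemma nPol_smul (T : Module.End F V) (φ : V →ₗ[F] F) (χ : F[X]) (N : ℕ) (c : F) (w : V) :
    nPol T φ χ N (c • w) = C c * nPol T φ χ N w := by
  unfold nPol
  rw [Finset.mul_sum]
  refine Finset.sum_congr rfl fun l _ => ?_
  rw [gPol_smul]
  ring

lemma nPol_T (T : Module.End F V) (φ : V →ₗ[F] F) {χ : F[X]} {N : ℕ} (hdeg : χ.natDegree = N)
    (hχ : aeval T χ = 0) (w : V) :
    nPol T φ χ N (T w) = X * nPol T φ χ N w - C (φ w) * χ := by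
  unfold nPol
  have h1 : ∑ l ∈ Finset.range (N + 1), C (χ.coeff l) * C (φ ((T ^ l) w)) = 0 := by
    have h2 : (aeval T χ) w = ∑ l ∈ Finset.range (N + 1), χ.coeff l • (T ^ l) w := by
      rw [aeval_eq_sum_range, hdeg, LinearMap.sum_apply]
      rfl
    have h3 : φ ((aeval T χ) w) = ∑ l ∈ Finset.range (N + 1), χ.coeff l * φ ((T ^ l) w) := by
      rw [h2, map_sum]
      refine Finset.sum_congr rfl fun l _ => ?_
      rw [map_smul, smul_eq_mul]
    rw [hχ, LinearMap.zero_apply, map_zero] at h3
    simp only [← C_mul]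
    rw [← map_sum, ← h3, C_0]
  have h4 : ∑ l ∈ Finset.range (N + 1), C (χ.coeff l) * X ^ l = χ := by
    conv_rhs => rw [χ.as_sum_range_C_mul_X_pow, hdeg]
  have h5 : ∀ l ∈ Finset.range (N + 1), C (χ.coeff l) * gPol T φ l (T w) =
      X * (C (χ.coeff l) * gPol T φ l w) + C (χ.coeff l) * C (φ ((T ^ l) w)) -
      C (φ w) * (C (χ.coeff l) * X ^ l) := by
    intro l _
    rw [gPol_apply_T]
    ring
  rw [Finset.sum_congr rfl h5, Finset.sum_sub_distrib, Finset.sum_add_distrib, h1,
    ← Finset.mul_sum, ← Finset.mul_sum, h4, add_zero]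

lemma gPol_degree (T : Module.End F V) (φ : V →ₗ[F] F) (l : ℕ) (w : V) :
    (gPol T φ l w).degree < l := by
  unfold gPol
  refine (Polynomial.degree_sum_le _ _).trans_lt ?_
  rw [Finset.sup_lt_iff (by exact WithBot.bot_lt_coe l)]
  intro k hk
  refine (degree_C_mul_X_pow_le _ _).trans_lt ?_
  exact_mod_cast Finset.mem_range.mp hk

lemma nPol_degree (T : Module.End F V) (φ : V →ₗ[F] F) (χ : F[X]) (N : ℕ) (w : V) :
    (nPol T φ χ N w).degree < N ∨ N = 0 ∧ nPol T φ χ N w = 0 := by
  rcases Nat.eq_zero_or_pos N with rfl | hN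
  · right
    refine ⟨rfl, ?_⟩
    simp [nPol, gPol]
  · left
    unfold nPol
    refine (Polynomial.degree_sum_le _ _).trans_lt ?_
    rw [Finset.sup_lt_iff (by exact WithBot.bot_lt_coe N)]
    intro l hl
    have hl' : l ≤ N := Nat.lt_succ_iff.mp (Finset.mem_range.mp hl)
    have h1 : (C (χ.coeff l) * gPol T φ l w).degree ≤ (gPol T φ l w).degree := by
      by_cases h0 : χ.coeff l = 0
      · rw [h0, C_0, zero_mul, degree_zero]
        exact bot_le
      · rw [degree_C_mul h0]
    exact (h1.trans_lt (gPol_degree T φ l w)).trans_le (by exact_mod_cast hl')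

lemma gPol_coeff (T : Module.End F V) (φ : V →ₗ[F] F) {l : ℕ} (hl : 0 < l) (w : V) :
    (gPol T φ l w).coeff (l - 1) = φ w := by
  unfold gPol
  rw [finsetSum_coeff, Finset.sum_eq_single (l - 1)]
  · rw [coeff_C_mul_X_pow, if_pos rfl]
    simp
  · intro k _ hk
    rw [coeff_C_mul_X_pow, if_neg (Ne.symm hk)]
  · intro h
    exact absurd (Finset.mem_range.mpr (by omega)) h

lemma nPol_coeff (T : Module.End F V) (φ : V →ₗ[F] F) {χ : F[X]} (hm : χ.Monic) {N : ℕ}
    (hdeg : χ.natDegree = N) (hN : 0 < N) (w : V) :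
    (nPol T φ χ N w).coeff (N - 1) = φ w := by
  unfold nPol
  rw [finsetSum_coeff, Finset.sum_eq_single N]
  · rw [coeff_C_mul, gPol_coeff T φ hN]
    have : χ.coeff N = 1 := by
      rw [← hdeg]
      exact hm
    rw [this, one_mul]
  · intro l hl hlN
    have hl' : l ≤ N := Nat.lt_succ_iff.mp (Finset.mem_range.mp hl)
    have h0 : (gPol T φ l w).coeff (N - 1) = 0 := by
      refine coeff_eq_zero_of_degree_lt ((gPol_degree T φ l w).trans_le ?_)
      have : l ≤ N - 1 := by omega
      exact_mod_cast this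
    rw [coeff_C_mul, h0, mul_zero]
  · intro h
    exact absurd (Finset.mem_range.mpr (by omega)) h

lemma nPol_eval (T : Module.End F V) (φ : V →ₗ[F] F) {χ : F[X]} {N : ℕ}
    (hdeg : χ.natDegree = N) (hχ : aeval T χ = 0) {a : F} {u w : V} (hu : a • u - T u = w) :
    χ.eval a * φ u = (nPol T φ χ N w).eval a := by
  have h1 : nPol T φ χ N w = C a * nPol T φ χ N u - (X * nPol T φ χ N u - C (φ u) * χ) := by
    rw [← nPol_T T φ hdeg hχ, ← nPol_smul, ← hu]
    have h2 : nPol T φ χ N (a • u) = nPol T φ χ N (a • u - T u) + nPol T φ χ N (T u) := by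
      rw [← nPol_add, sub_add_cancel]
    rw [h2]
    ring
  rw [h1]
  simp only [eval_sub, eval_mul, eval_C, eval_X]
  ring

lemma nPol_pow (T : Module.End F V) (φ : V →ₗ[F] F) {χ : F[X]} {N : ℕ}
    (hdeg : χ.natDegree = N) (hχ : aeval T χ = 0) (w : V) (t : ℕ) :
    ∃ q : F[X], X ^ t * nPol T φ χ N w = nPol T φ χ N ((T ^ t) w) + χ * q := by
  induction t with
  | zero => exact ⟨0, by simp⟩
  | succ t ih =>
    obtain ⟨q, hq⟩ := ih
    refine ⟨C (φ ((T ^ t) w)) + X * q, ?_⟩
    have h1 : (T ^ (t + 1)) w = T ((T ^ t) w) := by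
      rw [pow_succ']
      rfl
    rw [h1, nPol_T T φ hdeg hχ, pow_succ]
    calc X ^ t * X * nPol T φ χ N w = X * (X ^ t * nPol T φ χ N w) := by ring
      _ = X * (nPol T φ χ N ((T ^ t) w) + χ * q) := by rw [hq]
      _ = _ := by ring

/-- Existence of the rational function. -/
theorem exists_rational [Module.Finite F V] (T : Module.End F V) (φ : V →ₗ[F] F) (w : V)
    {N : ℕ} (hN : finrank F V = N) (hN0 : 0 < N) :
    ∃ ν P : F[X], ν.Monic ∧ ν.natDegree = N ∧ P.degree < N ∧
      ∀ (a : F) (u : V), a • u - T u = w → ν.eval a * φ u = P.eval a := by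
  have hdeg : (LinearMap.charpoly T).natDegree = N := by
    rw [LinearMap.charpoly_natDegree, hN]
  refine ⟨LinearMap.charpoly T, nPol T φ (LinearMap.charpoly T) N w,
    LinearMap.charpoly_monic T, hdeg, ?_, ?_⟩
  · rcases nPol_degree T φ (LinearMap.charpoly T) N w with h | ⟨h, _⟩
    · exact h
    · omega
  · intro a u hu
    exact nPol_eval T φ hdeg (LinearMap.aeval_self_charpoly T) hu

/-- Evaluation: every rational function which agrees with the resolvents at `2 N` points gives the
values on the orbit. -/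
theorem rational_coeff [Module.Finite F V] (T : Module.End F V) (φ : V →ₗ[F] F) (w : V)
    {N : ℕ} (hN : finrank F V = N) (hN0 : 0 < N) {ν P : F[X]} (hν : ν.Monic)
    (hνN : ν.natDegree = N) (hP : P.degree < N) (A : Finset F) (hA : 2 * N ≤ A.card)
    (h : ∀ a ∈ A, ∃ u : V, a • u - T u = w ∧ ν.eval a * φ u = P.eval a) (t : ℕ) :
    φ ((T ^ t) w) = ((X ^ t * P) %ₘ ν).coeff (N - 1) := by
  set χ := LinearMap.charpoly T with hχdef
  have hχm : χ.Monic := LinearMap.charpoly_monic T
  have hχN : χ.natDegree = N := by rw [hχdef, LinearMap.charpoly_natDegree, hN]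
  have hχ0 : aeval T χ = 0 := LinearMap.aeval_self_charpoly T
  set P0 := nPol T φ χ N w with hP0
  have hP0d : P0.degree < N := by
    rcases nPol_degree T φ χ N w with h | ⟨h, _⟩
    · exact h
    · omega
  have hνd : ν.degree = N := by
    rw [degree_eq_natDegree hν.ne_zero, hνN]
  have hχd : χ.degree = N := by
    rw [degree_eq_natDegree hχm.ne_zero, hχN]
  -- the two rational functions agree
  have hcross : P * χ = ν * P0 := by
    refine Polynomial.eq_of_degree_sub_lt_of_eval_finset_eq A ?_ ?_
    · have hd : ∀ f g : F[X], f.degree < N → g.degree = N → (f * g).degree < (A.card : ℕ) := by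
        intro f g hf hg
        rcases eq_or_ne f 0 with rfl | hf0
        · rw [zero_mul, degree_zero]
          exact WithBot.bot_lt_coe _
        · have hg0 : g ≠ 0 := by
            rintro rfl
            rw [degree_zero] at hg
            exact absurd hg (by simp)
          rw [degree_mul, degree_eq_natDegree hf0, hg]
          rw [degree_eq_natDegree hf0] at hf
          have hf' : f.natDegree < N := by exact_mod_cast hf
          have : f.natDegree + N < A.card := by omega
          exact_mod_cast this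
      refine (degree_sub_le _ _).trans_lt (max_lt (hd _ _ hP hχd) ?_)
      rw [mul_comm]
      exact hd _ _ hP0d hνd
    · intro a ha
      obtain ⟨u, hu, hu2⟩ := h a ha
      have h3 := nPol_eval T φ hχN hχ0 hu
      rw [eval_mul, eval_mul, ← hu2, hP0, ← h3]
      ring
  -- remainders
  obtain ⟨q, hq⟩ := nPol_pow T φ hχN hχ0 w t
  set r0 := nPol T φ χ N ((T ^ t) w) with hr0
  have hr0d : r0.degree < N := by
    rcases nPol_degree T φ χ N ((T ^ t) w) with h | ⟨h, _⟩
    · exact h
    · omega
  set r := (X ^ t * P) %ₘ ν with hr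
  have hrd : r.degree < N := by
    rw [hr, ← hνd]
    exact degree_modByMonic_lt _ hν
  have hdiv := modByMonic_add_div (X ^ t * P) ν
  set Q := (X ^ t * P) /ₘ ν with hQ
  -- `r χ = ν r0`
  have hkey : r * χ - ν * r0 = ν * χ * (q - Q) := by
    have e1 : r = X ^ t * P - ν * Q := by
      rw [← hdiv]
      ring
    have e2 : r0 = X ^ t * P0 - χ * q := by
      rw [hq]
      ring
    rw [e1, e2]
    linear_combination (X ^ t) * hcross
  have hqQ : q - Q = 0 := by
    by_contra hne
    have h1 : (ν * χ * (q - Q)).degree = ((N + N + (q - Q).natDegree : ℕ) : WithBot ℕ) := by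
      rw [degree_mul, degree_mul, hνd, hχd, degree_eq_natDegree hne]
      push_cast
      rfl
    have h2 : (r * χ - ν * r0).degree < ((N + N : ℕ) : WithBot ℕ) := by
      have hd : ∀ f g : F[X], f.degree < N → g.degree = N →
          (f * g).degree < ((N + N : ℕ) : WithBot ℕ) := by
        intro f g hf hg
        rcases eq_or_ne f 0 with rfl | hf0
        · rw [zero_mul, degree_zero]
          exact WithBot.bot_lt_coe _
        · rw [degree_mul, degree_eq_natDegree hf0, hg]
          rw [degree_eq_natDegree hf0] at hf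
          have hf' : f.natDegree < N := by exact_mod_cast hf
          have : f.natDegree + N < N + N := by omega
          exact_mod_cast this
      refine (degree_sub_le _ _).trans_lt (max_lt (hd _ _ hrd hχd) ?_)
      rw [mul_comm]
      exact hd _ _ hr0d hνd
    rw [hkey, h1] at h2
    have h3 : N + N + (q - Q).natDegree < N + N := by exact_mod_cast h2
    omega
  have heq : r * χ = ν * r0 := by
    rw [hqQ, mul_zero, sub_eq_zero] at hkey
    exact hkey
  -- compare the coefficients of `X^(2N-1)`
  have hc : ∀ f g : F[X], f.degree < N → g.Monic → g.natDegree = N →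
      (f * g).coeff (N - 1 + N) = f.coeff (N - 1) := by
    intro f g hf hg hgN
    have h1 : (f * g).coeff (N - 1 + N) = f.coeff (N - 1) * g.coeff N := by
      refine coeff_mul_add_eq_of_natDegree_le ?_ hgN.le
      rcases eq_or_ne f 0 with rfl | hf0
      · simp
      · rw [degree_eq_natDegree hf0] at hf
        have hf' : f.natDegree < N := by exact_mod_cast hf
        omega
    rw [h1]
    have : g.coeff N = 1 := by
      rw [← hgN]
      exact hg
    rw [this, mul_one]
  have h1 := hc r χ hrd hχm hχN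
  have h2 := hc r0 ν hr0d hν hνN
  rw [heq, mul_comm, h2] at h1
  rw [← h1, hr0, nPol_coeff T φ hχm hχN hN0]

/-- Enough elements with a resolvent. -/
theorem card_resolvent [Fintype F] [Module.Finite F V] (T : Module.End F V) (w : V) {N : ℕ}
    (hN : finrank F V = N) (hF : 3 * N ≤ Fintype.card F) :
    ∃ A : Finset F, 2 * N ≤ A.card ∧ ∀ a ∈ A, ∃ u : V, a • u - T u = w := by
  classical
  set χ := LinearMap.charpoly T with hχdef
  have hχm : χ.Monic := LinearMap.charpoly_monic T
  have hχN : χ.natDegree = N := by rw [hχdef, LinearMap.charpoly_natDegree, hN]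
  refine ⟨Finset.univ \ χ.roots.toFinset, ?_, ?_⟩
  · have h1 : χ.roots.toFinset.card ≤ N := by
      refine (Multiset.toFinset_card_le _).trans ?_
      rw [← hχN]
      exact card_roots' χ
    have h2 : (Finset.univ \ χ.roots.toFinset).card = Fintype.card F - χ.roots.toFinset.card := by
      rw [Finset.card_sdiff_of_subset (Finset.subset_univ _), Finset.card_univ]
    rw [h2]
    omega
  · intro a ha
    have ha' : ¬ χ.IsRoot a := by
      intro hroot
      have : a ∈ χ.roots.toFinset := by
        rw [Multiset.mem_toFinset, mem_roots hχm.ne_zero]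
        exact hroot
      exact (Finset.mem_sdiff.mp ha).2 this
    have hinj : Function.Injective (a • (LinearMap.id : V →ₗ[F] V) - T) := by
      rw [← LinearMap.ker_eq_bot, Submodule.eq_bot_iff]
      intro u hu
      by_contra hu0
      apply ha'
      rw [hχdef]
      have h3 : T u = a • u := by
        have : a • u - T u = 0 := hu
        exact (sub_eq_zero.mp this).symm
      have h4 : (T : Module.End F V).HasEigenvalue a :=
        Module.End.hasEigenvalue_of_hasEigenvector
          ⟨Module.End.mem_eigenspace_iff.mpr h3, hu0⟩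
      exact (Module.End.hasEigenvalue_iff_isRoot_charpoly T a).mp h4
    have hsurj := LinearMap.injective_iff_surjective.mp hinj
    obtain ⟨u, hu⟩ := hsurj w
    exact ⟨u, hu⟩

end Pool.Agent.H63AB
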