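import Pool.Agent.H63AB.Krylov

/-!
The values `φ (T^t w)` on the orbit of a vector, in terms of the solutions of `(y - T) u = w` in
`V ⊗ F[y] / (g)`, `g` monic of degree `e`.
-/

namespace Pool.Agent.H63AB

open Module Polynomial

section general

variable {F V : Type*} [Field F] [AddCommGroup V] [Module F V]

/-- `(y - T) (∑_(l < e) u_l y^l) = w` modulo the monic polynomial `g` of degree `e`, in
coordinates. -/
def Sol (T : Module.End F V) (w : V) (e : ℕ) (g : F[X]) (u : ℕ → V) : Prop :=
  ∀ l < e, T (u l) = (if l = 0 then 0 else u (l - 1)) - g.coeff l • u (e - 1) -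
    (if l = 0 then w else 0)

/-- The polynomial of the values of `φ` on the coordinates. -/
noncomputable def uPol (φ : V →ₗ[F] F) (e : ℕ) (u : ℕ → V) : F[X] :=
  ∑ l ∈ Finset.range e, C (φ (u l)) * X ^ l

lemma uPol_degree (φ : V →ₗ[F] F) (e : ℕ) (u : ℕ → V) : (uPol φ e u).degree < e := by
  unfold uPol
  refine (Polynomial.degree_sum_le _ _).trans_lt ?_
  rw [Finset.sup_lt_iff (by exact WithBot.bot_lt_coe e)]
  intro k hk
  refine (degree_C_mul_X_pow_le _ _).trans_lt ?_
  exact_mod_cast Finset.mem_range.mp hk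

lemma uPol_coeff (φ : V →ₗ[F] F) {e : ℕ} (u : ℕ → V) {l : ℕ} (hl : l < e) :
    (uPol φ e u).coeff l = φ (u l) := by
  unfold uPol
  rw [finsetSum_coeff, Finset.sum_eq_single l]
  · rw [coeff_C_mul_X_pow, if_pos rfl]
  · intro k _ hk
    rw [coeff_C_mul_X_pow, if_neg (Ne.symm hk)]
  · intro h
    exact absurd (Finset.mem_range.mpr hl) h

lemma nPol_zero (T : Module.End F V) (φ : V →ₗ[F] F) (χ : F[X]) (N : ℕ) :
    nPol T φ χ N 0 = 0 := by
  have h := nPol_smul T φ χ N 0 0
  rwa [zero_smul, C_0, zero_mul] at h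

lemma nPol_sub (T : Module.End F V) (φ : V →ₗ[F] F) (χ : F[X]) (N : ℕ) (v w : V) :
    nPol T φ χ N (v - w) = nPol T φ χ N v - nPol T φ χ N w := by
  have h := nPol_add T φ χ N (v - w) w
  rw [sub_add_cancel] at h
  rw [h]
  ring

/-- The basic identity: `χ U - P = g n(u_(e-1))`. -/
lemma sol_identity (T : Module.End F V) (φ : V →ₗ[F] F) {χ : F[X]} {N : ℕ}
    (hdeg : χ.natDegree = N) (hχ : aeval T χ = 0) {w : V} {e : ℕ} (he : 0 < e) {g : F[X]}
    (hg : g.Monic) (hge : g.natDegree = e) {u : ℕ → V} (hs : Sol T w e g u) :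
    χ * uPol φ e u - nPol T φ χ N w = g * nPol T φ χ N (u (e - 1)) := by
  -- `∑ X^l n(T u_l)` in two ways
  have h1 : ∑ l ∈ Finset.range e, X ^ l * nPol T φ χ N (T (u l)) =
      X * ∑ l ∈ Finset.range e, X ^ l * nPol T φ χ N (u l) - χ * uPol φ e u := by
    unfold uPol
    rw [Finset.mul_sum, Finset.mul_sum, ← Finset.sum_sub_distrib]
    refine Finset.sum_congr rfl fun l _ => ?_
    rw [nPol_T T φ hdeg hχ]
    ring
  have h2 : ∑ l ∈ Finset.range e, X ^ l * nPol T φ χ N (T (u l)) =
      ∑ l ∈ Finset.range e, X ^ l * nPol T φ χ N (if l = 0 then 0 else u (l - 1)) -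
      (∑ l ∈ Finset.range e, C (g.coeff l) * X ^ l) * nPol T φ χ N (u (e - 1)) -
      ∑ l ∈ Finset.range e, X ^ l * nPol T φ χ N (if l = 0 then w else 0) := by
    rw [Finset.sum_mul, ← Finset.sum_sub_distrib, ← Finset.sum_sub_distrib]
    refine Finset.sum_congr rfl fun l hl => ?_
    rw [hs l (Finset.mem_range.mp hl), nPol_sub, nPol_sub, nPol_smul]
    ring
  have h3 : ∑ l ∈ Finset.range e, X ^ l * nPol T φ χ N (if l = 0 then w else 0) =
      nPol T φ χ N w := by
    rw [Finset.sum_eq_single 0]
    · rw [if_pos rfl, pow_zero, one_mul]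
    · intro l _ hl
      rw [if_neg hl, nPol_zero, mul_zero]
    · intro h
      exact absurd (Finset.mem_range.mpr he) h
  have h4 : ∑ l ∈ Finset.range e, X ^ l * nPol T φ χ N (if l = 0 then 0 else u (l - 1)) =
      X * ∑ l ∈ Finset.range e, X ^ l * nPol T φ χ N (u l) -
      X ^ e * nPol T φ χ N (u (e - 1)) := by
    obtain ⟨e', rfl⟩ : ∃ e', e = e' + 1 := ⟨e - 1, by omega⟩
    rw [Finset.sum_range_succ']
    simp only [Nat.add_sub_cancel, if_true, nPol_zero, mul_zero, add_zero,
      Nat.succ_ne_zero, if_false]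
    rw [Finset.mul_sum, Finset.sum_range_succ]
    have : ∑ l ∈ Finset.range e', X ^ (l + 1) * nPol T φ χ N (u l) =
        ∑ l ∈ Finset.range e', X * (X ^ l * nPol T φ χ N (u l)) := by
      refine Finset.sum_congr rfl fun l _ => ?_
      rw [pow_succ]
      ring
    rw [this, pow_succ]
    ring
  have h5 : ∑ l ∈ Finset.range e, C (g.coeff l) * X ^ l = g - X ^ e := by
    have h6 : ∑ l ∈ Finset.range (e + 1), C (g.coeff l) * X ^ l = g := by
      conv_rhs => rw [g.as_sum_range_C_mul_X_pow, hge]
    rw [Finset.sum_range_succ] at h6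
    have h7 : g.coeff e = 1 := by
      rw [← hge]
      exact hg
    rw [h7, C_1, one_mul] at h6
    exact eq_sub_of_add_eq h6
  rw [h2, h3, h4, h5] at h1
  linear_combination h1

/-- Existence of the rational function. -/
theorem exists_sol_rational [Module.Finite F V] (T : Module.End F V) (φ : V →ₗ[F] F) (w : V)
    {N : ℕ} (hN : finrank F V = N) (hN0 : 0 < N) :
    ∃ ν P : F[X], ν.Monic ∧ ν.natDegree = N ∧ P.degree < N ∧
      ∀ e, 0 < e → ∀ g : F[X], g.Monic → g.natDegree = e → ∀ u : ℕ → V, Sol T w e g u →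
        g ∣ ν * uPol φ e u - P := by
  have hdeg : (LinearMap.charpoly T).natDegree = N := by
    rw [LinearMap.charpoly_natDegree, hN]
  refine ⟨LinearMap.charpoly T, nPol T φ (LinearMap.charpoly T) N w,
    LinearMap.charpoly_monic T, hdeg, ?_, ?_⟩
  · rcases nPol_degree T φ (LinearMap.charpoly T) N w with h | ⟨h, _⟩
    · exact h
    · omega
  · intro e he g hg hge u hs
    exact ⟨_, sol_identity T φ hdeg (LinearMap.aeval_self_charpoly T) he hg hge hs⟩

/-- The linear map whose fibre is the set of solutions. -/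
def solMap (T : Module.End F V) (e : ℕ) (g : F[X]) : (Fin e → V) →ₗ[F] (Fin e → V) where
  toFun u l := (if h : (l : ℕ) = 0 then 0 else u ⟨l - 1, by have := l.2; omega⟩) -
    g.coeff l • u ⟨e - 1, by have := l.2; omega⟩ - T (u l)
  map_add' u v := by
    funext l
    simp only [Pi.add_apply, map_add, smul_add]
    split_ifs
    · abel
    · abel
  map_smul' c u := by
    funext l
    simp only [Pi.smul_apply, map_smul, RingHom.id_apply, smul_sub, smul_comm c (g.coeff l)]
    split_ifs
    · rw [smul_zero]
    · rfl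

/-- Solvability for `g` prime to the characteristic polynomial. -/
theorem exists_sol [Module.Finite F V] (T : Module.End F V) (w : V) {e : ℕ} (he : 0 < e)
    {g : F[X]} (hg : g.Monic) (hge : g.natDegree = e)
    (hcop : IsCoprime g (LinearMap.charpoly T)) : ∃ u : ℕ → V, Sol T w e g u := by
  have hinj : Function.Injective (solMap T e g) := by
    rw [← LinearMap.ker_eq_bot, Submodule.eq_bot_iff]
    intro u hu
    have hu' : solMap T e g u = 0 := hu
    -- the extension of `u`
    set u' : ℕ → V := fun l => if h : l < e then u ⟨l, h⟩ else 0 with hu'def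
    have hs : Sol T 0 e g u' := by
      intro l hl
      have h1 := congrFun hu' ⟨l, hl⟩
      have h2 : (if h : l = 0 then (0 : V) else u ⟨l - 1, by omega⟩) -
        g.coeff l • u ⟨e - 1, by omega⟩ - T (u ⟨l, hl⟩) = 0 := h1
      have h3 : u' l = u ⟨l, hl⟩ := dif_pos hl
      have h4 : u' (e - 1) = u ⟨e - 1, by omega⟩ := dif_pos (by omega)
      have h5 : (if l = 0 then (0 : V) else u' (l - 1)) =
          if h : l = 0 then (0 : V) else u ⟨l - 1, by omega⟩ := by
        by_cases h0 : l = 0
        · rw [if_pos h0, dif_pos h0]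
        · rw [if_neg h0, dif_neg h0]
          exact dif_pos (by omega)
      rw [h3, h4, h5]
      have h6 : (if l = 0 then (0 : V) else 0) = 0 := by split_ifs <;> rfl
      rw [h6, sub_zero]
      exact (sub_eq_zero.mp h2).symm
    have hz : ∀ φ : V →ₗ[F] F, ∀ l, l < e → φ (u' l) = 0 := by
      intro φ l hl
      have h1 := sol_identity T φ (LinearMap.charpoly_natDegree T)
        (LinearMap.aeval_self_charpoly T) he hg hge hs
      rw [nPol_zero, sub_zero] at h1
      have h2 : g ∣ uPol φ e u' := by
        have h3 : g ∣ LinearMap.charpoly T * uPol φ e u' := ⟨_, h1⟩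
        exact hcop.dvd_of_dvd_mul_left h3
      have h4 : uPol φ e u' = 0 := by
        by_contra hne
        have h5 := degree_le_of_dvd h2 hne
        have h6 := uPol_degree φ e u'
        rw [degree_eq_natDegree hg.ne_zero, hge] at h5
        exact absurd (h5.trans_lt h6) (lt_irrefl _)
      rw [← uPol_coeff φ u' hl, h4, coeff_zero]
    funext ⟨l, hl⟩
    have h1 : u' l = u ⟨l, hl⟩ := dif_pos hl
    have h2 : u' l = 0 := by
      rw [← Module.forall_dual_apply_eq_zero_iff F]
      intro φ
      exact hz φ l hl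
    rw [← h1, h2]
    rfl
  have hsurj := LinearMap.injective_iff_surjective.mp hinj
  obtain ⟨u, hu⟩ := hsurj (fun l => if (l : ℕ) = 0 then w else 0)
  refine ⟨fun l => if h : l < e then u ⟨l, h⟩ else 0, ?_⟩
  intro l hl
  have h1 := congrFun hu ⟨l, hl⟩
  have h2 : (if h : l = 0 then (0 : V) else u ⟨l - 1, by omega⟩) -
    g.coeff l • u ⟨e - 1, by omega⟩ - T (u ⟨l, hl⟩) = if l = 0 then w else 0 := h1
  have h5 : (if l = 0 then (0 : V) else (fun l => if h : l < e then u ⟨l, h⟩ else 0) (l - 1)) =
      if h : l = 0 then (0 : V) else u ⟨l - 1, by omega⟩ := by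
    by_cases h0 : l = 0
    · rw [if_pos h0, dif_pos h0]
    · have h7 : l - 1 < e := by omega
      rw [if_neg h0, dif_neg h0]
      show (if h : l - 1 < e then u ⟨l - 1, h⟩ else 0) = u ⟨l - 1, h7⟩
      exact dif_pos h7
  rw [h5]
  have h8 : e - 1 < e := by omega
  have h9 : (if h : e - 1 < e then u ⟨e - 1, h⟩ else 0) = u ⟨e - 1, h8⟩ := dif_pos h8
  show T (if h : l < e then u ⟨l, h⟩ else 0) = _ - g.coeff l •
    (if h : e - 1 < e then u ⟨e - 1, h⟩ else 0) - _
  rw [dif_pos hl, h9, ← h2]
  abel

/-- A rational function which equals the generating function gives the values on the orbit. -/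
theorem coeff_of_cross [Module.Finite F V] (T : Module.End F V) (φ : V →ₗ[F] F) (w : V)
    {N : ℕ} (hN : finrank F V = N) (hN0 : 0 < N) {ν P : F[X]} (hν : ν.Monic)
    (hνN : ν.natDegree = N)
    (hcross : P * LinearMap.charpoly T = ν * nPol T φ (LinearMap.charpoly T) N w) (t : ℕ) :
    φ ((T ^ t) w) = ((X ^ t * P) %ₘ ν).coeff (N - 1) := by
  set χ := LinearMap.charpoly T with hχdef
  have hχm : χ.Monic := LinearMap.charpoly_monic T
  have hχN : χ.natDegree = N := by rw [hχdef, LinearMap.charpoly_natDegree, hN]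
  have hχ0 : aeval T χ = 0 := LinearMap.aeval_self_charpoly T
  set P0 := nPol T φ χ N w with hP0
  have hνd : ν.degree = N := by
    rw [degree_eq_natDegree hν.ne_zero, hνN]
  have hχd : χ.degree = N := by
    rw [degree_eq_natDegree hχm.ne_zero, hχN]
  obtain ⟨q, hq⟩ := nPol_pow T φ hχN hχ0 w t
  set r0 := nPol T φ χ N ((T ^ t) w) with hr0
  have hr0d : r0.degree < N := by
    rcases nPol_degree T φ χ N ((T ^ t) w) with h | ⟨h, _⟩
    · exact h
    · omega
  set r := (X ^ t * P) %ₘ ν with hr
  have hrd : r.degree < N := by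
    rw [hr, ← hνd]
    exact degree_modByMonic_lt _ hν
  have hdiv := modByMonic_add_div (X ^ t * P) ν
  set Q := (X ^ t * P) /ₘ ν with hQ
  have hkey : r * χ - ν * r0 = ν * χ * (q - Q) := by
    have e1 : r = X ^ t * P - ν * Q := by
      rw [← hdiv]
      ring
    have e2 : r0 = X ^ t * P0 - χ * q := by
      rw [hq]
      ring
    rw [e1, e2]
    linear_combination (X ^ t) * hcross
  have hqQ : q - Q = 0 := by
    by_contra hne
    have h1 : (ν * χ * (q - Q)).degree = ((N + N + (q - Q).natDegree : ℕ) : WithBot ℕ) := by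
      rw [degree_mul, degree_mul, hνd, hχd, degree_eq_natDegree hne]
      push_cast
      rfl
    have h2 : (r * χ - ν * r0).degree < ((N + N : ℕ) : WithBot ℕ) := by
      have hd : ∀ f g : F[X], f.degree < N → g.degree = N →
          (f * g).degree < ((N + N : ℕ) : WithBot ℕ) := by
        intro f g hf hg
        rcases eq_or_ne f 0 with rfl | hf0
        · rw [zero_mul, degree_zero]
          exact WithBot.bot_lt_coe _
        · rw [degree_mul, degree_eq_natDegree hf0, hg]
          rw [degree_eq_natDegree hf0] at hf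
          have hf' : f.natDegree < N := by exact_mod_cast hf
          have : f.natDegree + N < N + N := by omega
          exact_mod_cast this
      refine (degree_sub_le _ _).trans_lt (max_lt (hd _ _ hrd hχd) ?_)
      rw [mul_comm]
      exact hd _ _ hr0d hνd
    rw [hkey, h1] at h2
    have h3 : N + N + (q - Q).natDegree < N + N := by exact_mod_cast h2
    omega
  have heq : r * χ = ν * r0 := by
    rw [hqQ, mul_zero, sub_eq_zero] at hkey
    exact hkey
  have hc : ∀ f g : F[X], f.degree < N → g.Monic → g.natDegree = N →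
      (f * g).coeff (N - 1 + N) = f.coeff (N - 1) := by
    intro f g hf hg hgN
    have h1 : (f * g).coeff (N - 1 + N) = f.coeff (N - 1) * g.coeff N := by
      refine coeff_mul_add_eq_of_natDegree_le ?_ hgN.le
      rcases eq_or_ne f 0 with rfl | hf0
      · simp
      · rw [degree_eq_natDegree hf0] at hf
        have hf' : f.natDegree < N := by exact_mod_cast hf
        omega
    rw [h1]
    have : g.coeff N = 1 := by
      rw [← hgN]
      exact hg
    rw [this, mul_one]
  have h1 := hc r χ hrd hχm hχN
  have h2 := hc r0 ν hr0d hν hνN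
  rw [heq, mul_comm, h2] at h1
  rw [← h1, hr0, nPol_coeff T φ hχm hχN hN0]

/-- Evaluation, with an extension field with at least `3 N` elements. -/
theorem sol_coeff_ext {K : Type*} [Field K] [Fintype K] [Algebra F K] [Module.Finite F K]
    [Module.Finite F V] (T : Module.End F V) (φ : V →ₗ[F] F) (w : V) {N e : ℕ}
    (hN : finrank F V = N) (hN0 : 0 < N) (hK : finrank F K = e) (hcard : 3 * N ≤ Fintype.card K)
    {ν P : F[X]} (hν : ν.Monic) (hνN : ν.natDegree = N) (hP : P.degree < N)
    (h : ∀ g : F[X], g.Monic → g.natDegree = e → ∀ u : ℕ → V, Sol T w e g u →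
      g ∣ ν * uPol φ e u - P) (t : ℕ) :
    φ ((T ^ t) w) = ((X ^ t * P) %ₘ ν).coeff (N - 1) := by
  classical
  refine coeff_of_cross T φ w hN hN0 hν hνN ?_ t
  set χ := LinearMap.charpoly T with hχdef
  have hχm : χ.Monic := LinearMap.charpoly_monic T
  have hχN : χ.natDegree = N := by rw [hχdef, LinearMap.charpoly_natDegree, hN]
  have hχ0 : aeval T χ = 0 := LinearMap.aeval_self_charpoly T
  set P0 := nPol T φ χ N w with hP0
  have hP0d : P0.degree < N := by
    rcases nPol_degree T φ χ N w with h | ⟨h, _⟩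
    · exact h
    · omega
  have hνd : ν.degree = N := by
    rw [degree_eq_natDegree hν.ne_zero, hνN]
  have hχd : χ.degree = N := by
    rw [degree_eq_natDegree hχm.ne_zero, hχN]
  have he : 0 < e := by
    rw [← hK]
    exact Module.finrank_pos
  -- vanishing at the elements which are no eigenvalues
  have hvan : ∀ a : K, aeval a χ ≠ 0 → aeval a (P * χ) = aeval a (ν * P0) := by
    intro a ha
    have hint : IsIntegral F a := IsIntegral.of_finite F a
    have hmm : (minpoly F a).Monic := minpoly.monic hint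
    have hdvd : (minpoly F a).natDegree ∣ e := by
      rw [← hK]
      exact minpoly.degree_dvd hint
    obtain ⟨c, hc⟩ := hdvd
    have hc0 : c ≠ 0 := by
      rintro rfl
      omega
    have hg : ((minpoly F a) ^ c).Monic := hmm.pow c
    have hge : ((minpoly F a) ^ c).natDegree = e := by
      rw [hmm.natDegree_pow, hc, mul_comm]
    have hcop : IsCoprime ((minpoly F a) ^ c) χ := by
      refine IsCoprime.pow_left ?_
      rw [(minpoly.irreducible hint).coprime_iff_not_dvd, minpoly.dvd_iff]
      exact ha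
    obtain ⟨u, hu⟩ := exists_sol T w he hg hge hcop
    have h1 := h _ hg hge u hu
    have h2 : (minpoly F a) ^ c ∣ χ * uPol φ e u - P0 :=
      ⟨_, sol_identity T φ hχN hχ0 he hg hge hu⟩
    have h3 : (minpoly F a) ^ c ∣ P * χ - ν * P0 := by
      have h4 := (h2.mul_left ν).sub (h1.mul_left χ)
      have e1 : ν * (χ * uPol φ e u - P0) - χ * (ν * uPol φ e u - P) = P * χ - ν * P0 := by
        ring
      rwa [e1] at h4
    have h5 : minpoly F a ∣ P * χ - ν * P0 := (dvd_pow_self _ hc0).trans h3
    rw [minpoly.dvd_iff, map_sub, sub_eq_zero] at h5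
    exact h5
  have hinj : Function.Injective (algebraMap F K) := (algebraMap F K).injective
  apply Polynomial.map_injective (algebraMap F K) hinj
  set χK := χ.map (algebraMap F K) with hχK
  have hχKm : χK.Monic := hχm.map _
  have hχKN : χK.natDegree = N := by
    rw [hχK, hχm.natDegree_map, hχN]
  have hroots : χK.roots.toFinset.card ≤ N := by
    refine (Multiset.toFinset_card_le _).trans ?_
    rw [← hχKN]
    exact card_roots' χK
  refine Polynomial.eq_of_degree_sub_lt_of_eval_finset_eq (Finset.univ \ χK.roots.toFinset) ?_ ?_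
  · have hA : (Finset.univ \ χK.roots.toFinset).card =
        Fintype.card K - χK.roots.toFinset.card := by
      rw [Finset.card_sdiff_of_subset (Finset.subset_univ _), Finset.card_univ]
    have hA2 : N + N ≤ (Finset.univ \ χK.roots.toFinset).card := by
      rw [hA]
      omega
    have hd : ∀ f g : F[X], f.degree < N → g.degree = N →
        ((f * g).map (algebraMap F K)).degree < ((N + N : ℕ) : WithBot ℕ) := by
      intro f g hf hg
      refine (degree_map_le).trans_lt ?_
      rcases eq_or_ne f 0 with rfl | hf0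
      · rw [zero_mul, degree_zero]
        exact WithBot.bot_lt_coe _
      · rw [degree_mul, degree_eq_natDegree hf0, hg]
        rw [degree_eq_natDegree hf0] at hf
        have hf' : f.natDegree < N := by exact_mod_cast hf
        have : f.natDegree + N < N + N := by omega
        exact_mod_cast this
    have h6 : ((P * χ).map (algebraMap F K) - (ν * P0).map (algebraMap F K)).degree <
        ((N + N : ℕ) : WithBot ℕ) := by
      refine (degree_sub_le _ _).trans_lt (max_lt (hd _ _ hP hχd) ?_)
      rw [mul_comm]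
      exact hd _ _ hP0d hνd
    exact h6.trans_le (by exact_mod_cast hA2)
  · intro a ha
    have ha' : aeval a χ ≠ 0 := by
      intro h0
      apply (Finset.mem_sdiff.mp ha).2
      rw [Multiset.mem_toFinset, mem_roots hχKm.ne_zero, IsRoot.def, hχK, eval_map_algebraMap]
      exact h0
    rw [eval_map_algebraMap, eval_map_algebraMap]
    exact hvan a ha'

end general

/-- Evaluation over the field with `p` elements, with a degree `e` such that `3 N ≤ p ^ e`. -/
theorem sol_coeff {p : ℕ} [Fact p.Prime] {V : Type*} [AddCommGroup V] [Module (ZMod p) V]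
    [Module.Finite (ZMod p) V] (T : Module.End (ZMod p) V) (φ : V →ₗ[ZMod p] ZMod p) (w : V)
    {N e : ℕ} (hN : finrank (ZMod p) V = N) (hN0 : 0 < N) (he : 0 < e) (hpe : 3 * N ≤ p ^ e)
    {ν P : (ZMod p)[X]} (hν : ν.Monic) (hνN : ν.natDegree = N) (hP : P.degree < N)
    (h : ∀ g : (ZMod p)[X], g.Monic → g.natDegree = e → ∀ u : ℕ → V, Sol T w e g u →
      g ∣ ν * uPol φ e u - P) (t : ℕ) :
    φ ((T ^ t) w) = ((X ^ t * P) %ₘ ν).coeff (N - 1) := by
  have : Fintype (GaloisField p e) := Fintype.ofFinite _
  have hK : finrank (ZMod p) (GaloisField p e) = e := GaloisField.finrank p he.ne'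
  have hcard : Fintype.card (GaloisField p e) = p ^ e := by
    rw [← Nat.card_eq_fintype_card]
    exact GaloisField.card p e he.ne'
  exact sol_coeff_ext (K := GaloisField p e) T φ w hN hN0 hK (by rw [hcard]; exact hpe) hν hνN hP
    h t

end Pool.Agent.H63AB
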